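import Mathlib

/-! Averages over products of finite sets and densities of token tuples. -/

set_option autoImplicit false
set_option linter.unusedSectionVars false

namespace Pool.Agent.P.MP_4cb405_co.Pk

open Finset Function
open scoped Classical BigOperators

variable {ι : Type} [Fintype ι] [DecidableEq ι]

/-- The average over a product of finite sets. -/
noncomputable def Av (A : ι → Finset ℕ) (g : (ι → ℕ) → ℝ) : ℝ := 𝔼 x ∈ Fintype.piFinset A, g x

/-- All sets are nonempty. -/
def NE (A : ι → Finset ℕ) : Prop := ∀ j, (A j).Nonempty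

/-- The indicator of a proposition. -/
noncomputable def ind (p : Prop) : ℝ := if p then 1 else 0

lemma ind_nonneg (p : Prop) : 0 ≤ ind p := by unfold ind; split_ifs <;> norm_num

lemma ind_le_one (p : Prop) : ind p ≤ 1 := by unfold ind; split_ifs <;> norm_num

lemma ind_mono {p r : Prop} (h : p → r) : ind p ≤ ind r := by
  unfold ind; split_ifs with h1 h2 <;> first | exact absurd (h h1) h2 | norm_num

lemma ind_and (p r : Prop) : ind (p ∧ r) = ind p * ind r := by
  unfold ind; by_cases p <;> by_cases r <;> simp [*]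

lemma NE.pi {A : ι → Finset ℕ} (h : NE A) : (Fintype.piFinset A).Nonempty :=
  Fintype.piFinset_nonempty.2 h

lemma NE.upd {A : ι → Finset ℕ} (h : NE A) (i : ι) {B : Finset ℕ} (hB : B.Nonempty) :
    NE (update A i B) := fun j => by
  by_cases e : j = i
  · subst e; rwa [update_self]
  · rw [update_of_ne e]; exact h j

lemma Av_mono {A : ι → Finset ℕ} {g g' : (ι → ℕ) → ℝ}
    (h : ∀ x, (∀ j, x j ∈ A j) → g x ≤ g' x) : Av A g ≤ Av A g' :=
  expect_le_expect fun x hx => h x (Fintype.mem_piFinset.1 hx)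

lemma Av_const {A : ι → Finset ℕ} (h : NE A) (a : ℝ) : Av A (fun _ => a) = a :=
  expect_const h.pi a

lemma Av_comm (A B : ι → Finset ℕ) (g : (ι → ℕ) → (ι → ℕ) → ℝ) :
    (Av A fun x => Av B fun y => g x y) = Av B fun y => Av A fun x => g x y :=
  expect_comm _ _ _

lemma Av_ex {A : ι → Finset ℕ} (h : NE A) {g : (ι → ℕ) → ℝ} {a : ℝ} (ha : a ≤ Av A g) :
    ∃ x, (∀ j, x j ∈ A j) ∧ a ≤ g x :=
  let ⟨x, h1, h2⟩ := exists_le_of_le_expect h.pi ha
  ⟨x, Fintype.mem_piFinset.1 h1, h2⟩

lemma Av_sq {A : ι → Finset ℕ} (h : NE A) (g : (ι → ℕ) → ℝ) :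
    Av A g ^ 2 ≤ Av A fun x => g x ^ 2 := by
  have := expect_mul_sq_le_sq_mul_sq (Fintype.piFinset A) g fun _ => (1 : ℝ)
  simpa [Av, expect_const h.pi] using this

/-- Resampling one coordinate. -/
lemma Av_upd {A : ι → Finset ℕ} {i : ι} (h : (A i).Nonempty) (B : Finset ℕ)
    (g : (ι → ℕ) → ℝ) : Av (update A i B) g = Av A fun x => 𝔼 z ∈ B, g (update x i z) := by
  have h1 : Av (update A i B) g =
      𝔼 p ∈ Fintype.piFinset (update A i B) ×ˢ A i, g p.1 := by
    rw [expect_product]; simp only [expect_const h, Av]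
  rw [h1, Av, ← expect_product']
  refine expect_nbij' (fun p => (update p.1 i p.2, p.1 i)) (fun p => (update p.1 i p.2, p.1 i))
    ?_ ?_ ?_ ?_ ?_
  · rintro ⟨x, z⟩ hp
    simp only [mem_product, Fintype.mem_piFinset] at hp ⊢
    refine ⟨fun j => ?_, by simpa using hp.1 i⟩
    by_cases e : j = i
    · subst e; simpa using hp.2
    · simpa [e] using hp.1 j
  · rintro ⟨x, z⟩ hp
    simp only [mem_product, Fintype.mem_piFinset] at hp ⊢
    refine ⟨fun j => ?_, hp.1 i⟩
    by_cases e : j = i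
    · subst e; simpa using hp.2
    · simpa [e] using hp.1 j
  · rintro ⟨x, z⟩ _; simp
  · rintro ⟨x, z⟩ _; simp
  · rintro ⟨x, z⟩ _; simp

lemma Av_marg {A : ι → Finset ℕ} (h : NE A) (i : ι) (g : ℕ → ℝ) :
    (Av A fun x => g (x i)) = 𝔼 z ∈ A i, g z := by
  have := Av_upd (h i) (A i) fun x => g (x i)
  rw [update_eq_self] at this
  simp only [this, update_self, Av_const h]

variable {T : Type} [Fintype T] [DecidableEq T] {q : ℕ}

/-- The tuple `x` respects the prescribed order and colours of pairs of tokens. -/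
def Fits (f : ℕ → ℕ → Fin q) (κ : T → T → Option (Fin q)) (x : T → ℕ) : Prop :=
  ∀ a b c, κ a b = some c → x a < x b ∧ f (x a) (x b) = c

/-- The density of the tuples that fit. -/
noncomputable def Z (f : ℕ → ℕ → Fin q) (κ : T → T → Option (Fin q)) (A : T → Finset ℕ) : ℝ :=
  Av A fun x => ind (Fits f κ x)

/-- The tokens of `S` are exchangeable and have no constraint between them. -/
def Cls (κ : T → T → Option (Fin q)) (S : Finset T) : Prop :=
  (∀ a ∈ S, ∀ b ∈ S, κ a b = none) ∧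
    ∀ a ∈ S, ∀ a' ∈ S, ∀ b ∉ S, κ a b = κ a' b ∧ κ b a = κ b a'

/-- The constraints after a split into `X` (left) and `Y` (right) with colour `c`. -/
def spl (κ : T → T → Option (Fin q)) (X Y : Finset T) (c : Fin q) : T → T → Option (Fin q) :=
  fun a b => if a ∈ X ∧ b ∈ Y then some c else κ a b

/-- The tokens of `S` are sent to `B`. -/
def put (A : T → Finset ℕ) (S : Finset T) (B : Finset ℕ) : T → Finset ℕ :=
  fun a => if a ∈ S then B else A a

/-- Passing a level is free. -/
def S_PASS : Prop :=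
  ∀ (T : Type) [Fintype T] [DecidableEq T] (q : ℕ) (f : ℕ → ℕ → Fin q)
    (κ : T → T → Option (Fin q)) (A : T → Finset ℕ) (S : Finset T) (B C : Finset ℕ),
    NE A → Cls κ S → B.Nonempty → Disjoint B C → B.card = C.card → (∀ a ∈ S, A a = B ∪ C) →
    Z f κ A ≤ Z f κ (put A S B) ∨ Z f κ A ≤ Z f κ (put A S C)

/-- A gain, or a colour for all splits. -/
def S_PROBE : Prop :=
  ∀ (T : Type) [Fintype T] [DecidableEq T] (q : ℕ) (f : ℕ → ℕ → Fin q)
    (κ : T → T → Option (Fin q)) (A : T → Finset ℕ) (S : Finset T) (B C : Finset ℕ),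
    NE A → Cls κ S → B.Nonempty → Disjoint B C → B.card = C.card → (∀ a ∈ S, A a = B ∪ C) →
    (∀ u ∈ B, ∀ v ∈ C, u < v) →
    (3 / 2) ^ S.card / 4 * Z f κ A ≤ Z f κ (put A S B) ∨
    (3 / 2) ^ S.card / 4 * Z f κ A ≤ Z f κ (put A S C) ∨
    ∃ c : Fin q, ∀ X Y : Finset T, Disjoint X Y → X ∪ Y = S →
      Z f κ A / (2 * q * 2 ^ S.card * (q : ℝ) ^ (X.card * Y.card)) ≤
        Z f (spl κ X Y c) (put (put A X B) Y C)

end Pool.Agent.P.MP_4cb405_co.Pk
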