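import Pool.Agent.P.MP_4cb405_co.Pk.A

/-! Passing a level and probing a cell. -/

set_option autoImplicit false
set_option linter.unusedSectionVars false

namespace Pool.Agent.P.MP_4cb405_co.Pk

open Finset Function
open scoped Classical BigOperators

section gen
variable {ι : Type} [Fintype ι] [DecidableEq ι]

lemma tangent {W m : ℝ} (hW : 0 ≤ W) (hm : 0 ≤ m) (b : ℕ) :
    m ^ (b + 1) + (b + 1) * m ^ b * (W - m) ≤ W ^ (b + 1) := by
  induction b with
  | zero => simp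
  | succ b ih =>
    have h1 := mul_le_mul_of_nonneg_left ih hW
    have h2 : 0 ≤ ((b : ℝ) + 1) * m ^ b * (W - m) ^ 2 := by positivity
    push_cast
    calc _ ≤ m ^ (b + 1 + 1) + (b + 1 + 1) * m ^ (b + 1) * (W - m) +
          ((b : ℝ) + 1) * m ^ b * (W - m) ^ 2 := le_add_of_nonneg_right h2
      _ = W * (m ^ (b + 1) + (b + 1) * m ^ b * (W - m)) := by ring
      _ ≤ _ := h1
      _ = _ := by ring

lemma jensen {α : Type} (s : Finset α) (U W : α → ℝ) {m : ℝ} (b : ℕ) (hU : ∀ x, 0 ≤ U x)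
    (hW : ∀ x, 0 ≤ W x) (hm : 0 ≤ m) (h : m * 𝔼 x ∈ s, U x ≤ 𝔼 x ∈ s, U x * W x) :
    m ^ b * 𝔼 x ∈ s, U x ≤ 𝔼 x ∈ s, U x * W x ^ b := by
  cases b with
  | zero => simp
  | succ b =>
    have h1 : 𝔼 x ∈ s, ((m ^ (b + 1) - (b + 1) * m ^ b * m) * U x +
        (b + 1) * m ^ b * (U x * W x)) ≤ 𝔼 x ∈ s, U x * W x ^ (b + 1) :=
      expect_le_expect fun x _ => by
        have := mul_le_mul_of_nonneg_left (tangent (hW x) hm b) (hU x)
        linarith
    rw [expect_add_distrib, ← mul_expect, ← mul_expect] at h1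
    have h2 := mul_le_mul_of_nonneg_left h (show 0 ≤ ((b : ℝ) + 1) * m ^ b by positivity)
    linarith

lemma ind_all {α : Type} (S : Finset α) (P : α → Prop) :
    ind (∀ a ∈ S, P a) = ∏ a ∈ S, ind (P a) := by
  by_cases h : ∀ a ∈ S, P a
  · rw [ind, if_pos h, prod_eq_one fun a ha => by rw [ind, if_pos (h a ha)]]
  · rw [ind, if_neg h]
    push Not at h
    obtain ⟨a, ha, h⟩ := h
    exact (prod_eq_zero ha (by rw [ind, if_neg h])).symm

lemma Av_nonneg {A : ι → Finset ℕ} {g : (ι → ℕ) → ℝ} (h : ∀ x, 0 ≤ g x) : 0 ≤ Av A g :=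
  expect_nonneg fun x _ => h x

lemma Av_mul (A : ι → Finset ℕ) (a : ℝ) (g : (ι → ℕ) → ℝ) :
    (Av A fun x => a * g x) = a * Av A g := (mul_expect _ _ _).symm

lemma Av_add (A : ι → Finset ℕ) (g g' : (ι → ℕ) → ℝ) :
    (Av A fun x => g x + g' x) = Av A g + Av A g' := expect_add_distrib _ _ _

/-- Resampling the coordinates in `S`. -/
lemma Av_pw {A A' : ι → Finset ℕ} (h : NE A) (S : Finset ι) (e : ∀ a ∉ S, A' a = A a)
    (g : (ι → ℕ) → ℝ) : Av A' g = Av A fun x => Av A' fun y => g (S.piecewise y x) := by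
  have h1 : Av A' g = 𝔼 p ∈ Fintype.piFinset A' ×ˢ Fintype.piFinset A, g p.1 := by
    rw [expect_product]; simp only [expect_const h.pi, Av]
  rw [h1]
  simp only [Av]
  rw [← expect_product']
  refine expect_nbij' (fun p => (S.piecewise p.2 p.1, S.piecewise p.1 p.2))
    (fun p => (S.piecewise p.2 p.1, S.piecewise p.1 p.2)) ?_ ?_ ?_ ?_ ?_
  · rintro ⟨x, z⟩ hp
    simp only [mem_product, Fintype.mem_piFinset] at hp ⊢
    refine ⟨fun j => ?_, fun j => ?_⟩ <;> by_cases hj : j ∈ S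
    · simpa [hj] using hp.2 j
    · simpa [hj, e j hj] using hp.1 j
    · simpa [hj] using hp.1 j
    · simpa [hj, e j hj] using hp.2 j
  · rintro ⟨x, z⟩ hp
    simp only [mem_product, Fintype.mem_piFinset] at hp ⊢
    refine ⟨fun j => ?_, fun j => ?_⟩ <;> by_cases hj : j ∈ S
    · simpa [hj] using hp.2 j
    · simpa [hj, e j hj] using hp.1 j
    · simpa [hj] using hp.1 j
    · simpa [hj, e j hj] using hp.2 j
  · rintro ⟨x, z⟩ _
    ext j <;> by_cases hj : j ∈ S <;> simp [hj]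
  · rintro ⟨x, z⟩ _
    ext j <;> by_cases hj : j ∈ S <;> simp [hj]
  · rintro ⟨x, z⟩ _
    congr 1
    ext j; by_cases hj : j ∈ S <;> simp [hj]

lemma Av_prod {A : ι → Finset ℕ} (h : NE A) (S : Finset ι) (φ : ι → ℕ → ℝ) :
    (Av A fun y => ∏ a ∈ S, φ a (y a)) = ∏ a ∈ S, 𝔼 z ∈ A a, φ a z := by
  induction S using Finset.induction_on with
  | empty => simp [Av_const h]
  | insert i S hi ih =>
    have := Av_upd (h i) (A i) fun y => ∏ a ∈ insert i S, φ a (y a)
    rw [update_eq_self] at this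
    rw [this, prod_insert hi, ← ih, ← Av_mul]
    congr 1
    ext y
    rw [expect_mul]
    refine expect_congr rfl fun z _ => ?_
    rw [prod_insert hi, update_self]
    congr 1
    exact prod_congr rfl fun a ha => by rw [update_of_ne (ne_of_mem_of_not_mem ha hi)]

lemma Av_pow {A : ι → Finset ℕ} (h : NE A) {S : Finset ι} {B : Finset ℕ} (e : ∀ a ∈ S, A a = B)
    (φ : ℕ → ℝ) : (Av A fun y => ∏ a ∈ S, φ (y a)) = (𝔼 z ∈ B, φ z) ^ S.card := by
  rw [Av_prod h S fun _ => φ, prod_congr rfl fun a ha => by rw [e a ha], prod_const]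

/-- The count of complete bipartite graphs. -/
lemma sid {A : ι → Finset ℕ} (h : NE A) {X Y : Finset ι} {B C : Finset ℕ} (hd : Disjoint X Y)
    (hX : ∀ a ∈ X, A a = B) (hY : ∀ a ∈ Y, A a = C) (u : ℕ → ℝ) (e : ℕ → ℕ → ℝ)
    (hu : ∀ z, 0 ≤ u z) (he : ∀ z w, 0 ≤ e z w) {p : ℝ} (hp : 0 ≤ p)
    (hm : p * (𝔼 z ∈ B, u z) * 𝔼 w ∈ C, u w ≤ 𝔼 w ∈ C, u w * 𝔼 z ∈ B, u z * e z w) :
    p ^ (X.card * Y.card) * (𝔼 z ∈ B, u z) ^ X.card * (𝔼 w ∈ C, u w) ^ Y.card ≤
      Av A fun y => (∏ a ∈ X, u (y a)) * ∏ b ∈ Y, (u (y b) * ∏ a ∈ X, e (y a) (y b)) := by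
  have gB : 0 ≤ 𝔼 z ∈ B, u z := expect_nonneg fun z _ => hu z
  have gC : 0 ≤ 𝔼 z ∈ C, u z := expect_nonneg fun z _ => hu z
  have s1 := jensen C u (fun w => 𝔼 z ∈ B, u z * e z w) X.card hu
    (fun w => expect_nonneg fun z _ => mul_nonneg (hu z) (he z w)) (mul_nonneg hp gB) hm
  have e1 : (Av A fun y => ∏ a ∈ X, u (y a)) = (𝔼 z ∈ B, u z) ^ X.card := Av_pow h hX u
  have e2 : (Av A fun y => (∏ a ∈ X, u (y a)) * 𝔼 w ∈ C, u w * ∏ a ∈ X, e (y a) w) =
      𝔼 w ∈ C, u w * (𝔼 z ∈ B, u z * e z w) ^ X.card := by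
    simp only [mul_expect]
    rw [Av, expect_comm]
    refine expect_congr rfl fun w _ => ?_
    rw [← Av_pow h hX fun z => u z * e z w, ← Av_mul]
    refine expect_congr rfl fun y _ => ?_
    rw [prod_mul_distrib]; ring
  have s2 := jensen (Fintype.piFinset A) (fun y => ∏ a ∈ X, u (y a))
    (fun y => 𝔼 w ∈ C, u w * ∏ a ∈ X, e (y a) w) (m := p ^ X.card * 𝔼 w ∈ C, u w) Y.card
    (fun y => prod_nonneg fun a _ => hu _)
    (fun y => expect_nonneg fun w _ => mul_nonneg (hu w) (prod_nonneg fun a _ => he _ _))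
    (by positivity) (by
      change _ * Av A _ ≤ Av A _
      rw [e1, e2]
      refine le_trans (le_of_eq ?_) s1
      ring)
  change _ * Av A _ ≤ Av A _ at s2
  rw [e1] at s2
  rw [Av_pw h Y (fun _ _ => rfl)]
  refine le_trans (le_of_eq (by rw [pow_mul]; ring)) (s2.trans (le_of_eq ?_))
  congr 1
  ext y
  rw [← Av_pow h hY fun w => u w * ∏ a ∈ X, e (y a) w, ← Av_mul]
  congr 1
  ext y'
  have k : ∀ a ∈ X, Y.piecewise y' y a = y a := fun a ha =>
    piecewise_eq_of_notMem _ _ _ (disjoint_left.1 hd ha)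
  congr 1
  · exact prod_congr rfl fun a ha => by rw [k a ha]
  · refine prod_congr rfl fun b hb => ?_
    rw [piecewise_eq_of_mem _ _ _ hb]
    congr 1
    exact prod_congr rfl fun a ha => by rw [k a ha]

lemma exp_union {B C : Finset ℕ} (hB : B.Nonempty) (hd : Disjoint B C) (hc : B.card = C.card)
    (u : ℕ → ℝ) : 𝔼 z ∈ B ∪ C, u z = ((𝔼 z ∈ B, u z) + 𝔼 z ∈ C, u z) / 2 := by
  have : (0 : ℝ) < B.card := by exact_mod_cast hB.card_pos
  simp only [expect_eq_sum_div_card, sum_union hd, card_union_of_disjoint hd, ← hc]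
  push_cast
  field_simp
  ring

end gen

variable {T : Type} [Fintype T] [DecidableEq T] {q : ℕ}

/-- The constraints outside `S`. -/
def Rst (f : ℕ → ℕ → Fin q) (κ : T → T → Option (Fin q)) (S : Finset T) (x : T → ℕ) : Prop :=
  ∀ a ∉ S, ∀ b ∉ S, ∀ c, κ a b = some c → x a < x b ∧ f (x a) (x b) = c

/-- The point `z` can play a token of `S`. -/
def Ok (f : ℕ → ℕ → Fin q) (κ : T → T → Option (Fin q)) (S : Finset T) (a : T) (x : T → ℕ)
    (z : ℕ) : Prop :=
  ∀ b ∉ S, ∀ c, (κ a b = some c → z < x b ∧ f z (x b) = c) ∧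
    (κ b a = some c → x b < z ∧ f (x b) z = c)

variable {f : ℕ → ℕ → Fin q} {κ : T → T → Option (Fin q)} {S : Finset T} {a₀ : T}
  {A : T → Finset ℕ}

lemma fits_pw (hC : Cls κ S) (h0 : a₀ ∈ S) (x y : T → ℕ) :
    Fits f κ (S.piecewise y x) ↔ Rst f κ S x ∧ ∀ a ∈ S, Ok f κ S a₀ x (y a) := by
  constructor
  · intro h
    refine ⟨fun a ha b hb c hc => by simpa [ha, hb] using h a b c hc, fun a ha b hb c =>
      ⟨fun hc => ?_, fun hc => ?_⟩⟩
    · simpa [ha, hb] using h a b c ((hC.2 a ha a₀ h0 b hb).1.trans hc)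
    · simpa [ha, hb] using h b a c ((hC.2 a ha a₀ h0 b hb).2.trans hc)
  · rintro ⟨h1, h2⟩ a b c hc
    by_cases ha : a ∈ S <;> by_cases hb : b ∈ S
    · rw [hC.1 a ha b hb] at hc; cases hc
    · simpa [ha, hb] using (h2 a ha b hb c).1 ((hC.2 a ha a₀ h0 b hb).1.symm.trans hc)
    · simpa [ha, hb] using (h2 b hb a ha c).2 ((hC.2 b hb a₀ h0 a ha).2.symm.trans hc)
    · simpa [ha, hb] using h1 a ha b hb c hc

lemma Z_eq (hA : NE A) (hC : Cls κ S) (h0 : a₀ ∈ S) {A' : T → Finset ℕ} (hA' : NE A')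
    (e : ∀ a ∉ S, A' a = A a) {B : Finset ℕ} (e' : ∀ a ∈ S, A' a = B) :
    Z f κ A' = Av A fun x => ind (Rst f κ S x) * (𝔼 z ∈ B, ind (Ok f κ S a₀ x z)) ^ S.card := by
  rw [Z, Av_pw hA S e]
  congr 1
  ext x
  rw [← Av_pow hA' e' fun z => ind (Ok f κ S a₀ x z), ← Av_mul]
  congr 1
  ext y
  rw [fits_pw hC h0, ind_and, ind_all]

lemma NE.put (hA : NE A) (S : Finset T) {B : Finset ℕ} (hB : B.Nonempty) : NE (put A S B) :=
  fun a => by unfold Pk.put; split_ifs; exacts [hB, hA a]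

lemma Z_put (hA : NE A) (hC : Cls κ S) (h0 : a₀ ∈ S) {B : Finset ℕ} (hB : B.Nonempty) :
    Z f κ (put A S B) =
      Av A fun x => ind (Rst f κ S x) * (𝔼 z ∈ B, ind (Ok f κ S a₀ x z)) ^ S.card :=
  Z_eq hA hC h0 (hA.put S hB) (fun _ ha => if_neg ha) fun _ ha => if_pos ha

lemma put_empty (A : T → Finset ℕ) (B : Finset ℕ) : put A ∅ B = A := by
  ext a; simp [put]

lemma Z_nonneg (f : ℕ → ℕ → Fin q) (κ : T → T → Option (Fin q)) (A : T → Finset ℕ) :
    0 ≤ Z f κ A := Av_nonneg fun _ => ind_nonneg _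

theorem p_PASS : S_PASS := by
  intro T _ _ q f κ A S B C hA hC hB hd hc hS
  rcases S.eq_empty_or_nonempty with rfl | ⟨a₀, h0⟩
  · exact Or.inl (by rw [put_empty])
  have hC' : C.Nonempty := card_pos.1 (hc ▸ hB.card_pos)
  have key : 2 * Z f κ A ≤ Z f κ (put A S B) + Z f κ (put A S C) := by
    rw [Z_eq hA hC h0 hA (fun _ _ => rfl) hS, Z_put hA hC h0 hB, Z_put hA hC h0 hC', ← Av_mul,
      ← Av_add]
    refine Av_mono fun x _ => ?_
    rw [exp_union hB hd hc]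
    obtain ⟨n, hn⟩ := Nat.exists_eq_succ_of_ne_zero (card_pos.2 ⟨a₀, h0⟩).ne'
    have gB : 0 ≤ 𝔼 z ∈ B, ind (Ok f κ S a₀ x z) := expect_nonneg fun z _ => ind_nonneg _
    have gC : 0 ≤ 𝔼 z ∈ C, ind (Ok f κ S a₀ x z) := expect_nonneg fun z _ => ind_nonneg _
    rw [hn]
    generalize (𝔼 z ∈ B, ind (Ok f κ S a₀ x z)) = b at *
    generalize (𝔼 z ∈ C, ind (Ok f κ S a₀ x z)) = c at *
    have h1 := tangent gB (show 0 ≤ (b + c) / 2 by positivity) n
    have h2 := tangent gC (show 0 ≤ (b + c) / 2 by positivity) n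
    have h3 : 2 * ((b + c) / 2) ^ (n + 1) ≤ b ^ (n + 1) + c ^ (n + 1) := by linarith
    have := mul_le_mul_of_nonneg_left h3 (ind_nonneg (Rst f κ S x))
    simp only [Nat.succ_eq_add_one]
    linarith
  by_contra hn
  push Not at hn
  linarith [hn.1, hn.2]

lemma sum_ind (c : Fin q) : ∑ i, ind (c = i) = 1 := by
  rw [sum_eq_single c (f := fun i => ind (c = i)) (fun i _ h => if_neg h.symm)
    fun h => absurd (mem_univ _) h]
  exact if_pos rfl

lemma major (f : ℕ → ℕ → Fin q) (B C : Finset ℕ) (u : ℕ → ℝ) :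
    ∃ c : Fin q, (q : ℝ)⁻¹ * (𝔼 z ∈ B, u z) * 𝔼 w ∈ C, u w ≤
      𝔼 w ∈ C, u w * 𝔼 z ∈ B, u z * ind (f z w = c) := by
  have hq : (0 : ℝ) < q := by exact_mod_cast (f 0 0).pos
  have hne : (univ : Finset (Fin q)).Nonempty := ⟨f 0 0, mem_univ _⟩
  obtain ⟨c, -, hc⟩ := exists_le_of_sum_le (s := (univ : Finset (Fin q))) hne
    (f := fun _ => (q : ℝ)⁻¹ * (𝔼 z ∈ B, u z) * 𝔼 w ∈ C, u w)
    (g := fun c => 𝔼 w ∈ C, u w * 𝔼 z ∈ B, u z * ind (f z w = c)) (le_of_eq (by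
      rw [← expect_sum_comm]
      have : ∀ w, ∑ c : Fin q, u w * 𝔼 z ∈ B, u z * ind (f z w = c) = u w * 𝔼 z ∈ B, u z :=
        fun w => by
          rw [← mul_sum, ← expect_sum_comm]
          congr 1
          refine expect_congr rfl fun z _ => ?_
          rw [← mul_sum, sum_ind, mul_one]
      simp only [this, ← expect_mul, sum_const, card_univ, Fintype.card_fin, nsmul_eq_mul]
      field_simp))
  exact ⟨c, hc⟩

theorem p_PROBE : S_PROBE := by
  intro T _ _ q f κ A S B C hA hC hB hd hc hS hlt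
  have hZ := Z_nonneg f κ A
  rcases S.eq_empty_or_nonempty with rfl | ⟨a₀, h0⟩
  · refine Or.inl ?_
    rw [put_empty, card_empty]
    linarith
  have hC' : C.Nonempty := card_pos.1 (hc ▸ hB.card_pos)
  have hq : (0 : ℝ) < q := by exact_mod_cast (f 0 0).pos
  choose col hcol using fun x : T → ℕ => major f B C fun z => ind (Ok f κ S a₀ x z)
  set gB : (T → ℕ) → ℝ := fun x => 𝔼 z ∈ B, ind (Ok f κ S a₀ x z) with hgB
  set gC : (T → ℕ) → ℝ := fun x => 𝔼 z ∈ C, ind (Ok f κ S a₀ x z) with hgC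
  have pB : ∀ x, 0 ≤ gB x := fun x => expect_nonneg fun z _ => ind_nonneg _
  have pC : ∀ x, 0 ≤ gC x := fun x => expect_nonneg fun z _ => ind_nonneg _
  set F : Fin q → (T → ℕ) → ℝ := fun c x => ind (Rst f κ S x) * ((gB x + gC x) / 2) ^ S.card *
    ind (((gB x + gC x) / 4 ≤ gB x ∧ (gB x + gC x) / 4 ≤ gC x) ∧ col x = c) with hF
  have h32 : (0 : ℝ) < (3 / 2) ^ S.card := by positivity
  have key : (3 / 2) ^ S.card * Z f κ A ≤ Z f κ (put A S B) + Z f κ (put A S C) +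
      (3 / 2) ^ S.card * ∑ c, Av A (F c) := by
    have e : ∑ c, Av A (F c) = Av A fun x => ∑ c, F c x := (expect_sum_comm _ _ _).symm
    rw [e, Z_eq hA hC h0 hA (fun _ _ => rfl) hS, Z_put hA hC h0 hB, Z_put hA hC h0 hC', ← Av_mul,
      ← Av_mul, ← Av_add, ← Av_add]
    refine Av_mono fun x _ => ?_
    rw [exp_union hB hd hc]
    change _ * (_ * ((gB x + gC x) / 2) ^ _) ≤ _ * gB x ^ _ + _ * gC x ^ _ + _
    have hr := ind_nonneg (Rst f κ S x)
    have b0 := pB x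
    have c0 := pC x
    by_cases hb : (gB x + gC x) / 4 ≤ gB x ∧ (gB x + gC x) / 4 ≤ gC x
    · have : ∑ c, F c x = ind (Rst f κ S x) * ((gB x + gC x) / 2) ^ S.card := by
        simp only [hF, ← mul_sum]
        simp [ind, hb]
      rw [this]
      exact le_add_of_nonneg_left (by positivity)
    · have : ∑ c, F c x = 0 := by simp [hF, ind, hb]
      rw [this, mul_zero, add_zero, ← mul_add, mul_left_comm, ← mul_pow]
      refine mul_le_mul_of_nonneg_left ?_ hr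
      rcases not_and_or.1 hb with h | h
      · exact le_add_of_nonneg_of_le (by positivity)
          (pow_le_pow_left₀ (by positivity) (by linarith [not_le.1 h]) _)
      · exact le_add_of_le_of_nonneg
          (pow_le_pow_left₀ (by positivity) (by linarith [not_le.1 h]) _) (by positivity)
  by_contra hn
  push Not at hn
  obtain ⟨n1, n2, n3⟩ := hn
  have h1 : Z f κ A / 2 ≤ ∑ c, Av A (F c) :=
    le_of_mul_le_mul_left (by linarith) h32
  obtain ⟨c, -, hc'⟩ := exists_le_of_sum_le (s := (univ : Finset (Fin q))) ⟨f 0 0, mem_univ _⟩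
    (f := fun _ => Z f κ A / (2 * q)) (g := fun c => Av A (F c)) (le_trans (le_of_eq (by
      simp only [sum_const, card_univ, Fintype.card_fin, nsmul_eq_mul]
      field_simp)) h1)
  obtain ⟨X, Y, hXY, hU, hlt'⟩ := n3 c
  refine absurd hlt' (not_lt.2 ?_)
  have hA' : NE (put (put A X B) Y C) := (hA.put X hB).put Y hC'
  have eX : ∀ a ∈ X, put (put A X B) Y C a = B := fun a ha => by
    simp [put, ha, disjoint_left.1 hXY ha]
  have eY : ∀ a ∈ Y, put (put A X B) Y C a = C := fun a ha => by simp [put, ha]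
  have sX : X ⊆ S := hU ▸ subset_union_left
  have sY : Y ⊆ S := hU ▸ subset_union_right
  have hcard : S.card = X.card + Y.card := by rw [← hU, card_union_of_disjoint hXY]
  have hK : (0 : ℝ) < 2 ^ S.card * (q : ℝ) ^ (X.card * Y.card) := by positivity
  rw [mul_assoc, ← div_div, div_le_iff₀ hK, mul_comm (Z f _ _)]
  refine hc'.trans ?_
  have eS : ∀ a ∉ S, put (put A X B) Y C a = A a := fun a ha => by
    simp [put, mt (@sX a) ha, mt (@sY a) ha]
  rw [Z, Av_pw hA S eS, ← Av_mul]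
  refine Av_mono fun x _ => ?_
  have hs := sid hA' hXY eX eY (fun z => ind (Ok f κ S a₀ x z)) (fun z w => ind (f z w = col x))
    (fun _ => ind_nonneg _) (fun _ _ => ind_nonneg _) (inv_nonneg.2 hq.le) (hcol x)
  by_cases hb : ((gB x + gC x) / 4 ≤ gB x ∧ (gB x + gC x) / 4 ≤ gC x) ∧ col x = c
  swap
  · simp only [hF, ind, if_neg hb, mul_zero]
    exact mul_nonneg hK.le (Av_nonneg fun _ => by split_ifs <;> norm_num)
  have b0 := pB x
  have c0 := pC x
  have h2 : ((gB x + gC x) / 2) ^ S.card ≤ 2 ^ S.card * (gB x ^ X.card * gC x ^ Y.card) := by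
    calc _ = 2 ^ S.card * (((gB x + gC x) / 4) ^ X.card * ((gB x + gC x) / 4) ^ Y.card) := by
          rw [← pow_add, ← hcard, ← mul_pow]; congr 1; ring
      _ ≤ _ := by gcongr; exacts [hb.1.1, hb.1.2]
  have h3 : ind (Rst f κ S x) * ((q : ℝ)⁻¹ ^ (X.card * Y.card) * gB x ^ X.card * gC x ^ Y.card) ≤
      Av (put (put A X B) Y C) fun y => ind (Fits f (spl κ X Y c) (S.piecewise y x)) := by
    refine (mul_le_mul_of_nonneg_left hs (ind_nonneg _)).trans ?_
    rw [← Av_mul]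
    refine Av_mono fun y hy => ?_
    simp only [← ind_all, ← ind_and]
    refine ind_mono fun ⟨r1, r2, r3⟩ => ?_
    have hf : Fits f κ (S.piecewise y x) := (fits_pw hC h0 x y).2 ⟨r1, fun a ha => by
      rcases mem_union.1 (hU ▸ ha) with h | h
      exacts [r2 a h, (r3 a h).1]⟩
    intro a b c' hc'
    unfold spl at hc'
    split_ifs at hc' with h
    · rw [piecewise_eq_of_mem _ _ _ (sX h.1), piecewise_eq_of_mem _ _ _ (sY h.2)]
      exact ⟨hlt _ (eX a h.1 ▸ hy a) _ (eY b h.2 ▸ hy b),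
        ((r3 b h.2).2 a h.1).trans (hb.2.trans (Option.some.inj hc'))⟩
    · exact hf a b c' hc'
  have hr := ind_nonneg (Rst f κ S x)
  calc F c x = ind (Rst f κ S x) * ((gB x + gC x) / 2) ^ S.card := by
        simp only [hF]; rw [show ind _ = 1 from if_pos hb, mul_one]
    _ ≤ ind (Rst f κ S x) * (2 ^ S.card * (gB x ^ X.card * gC x ^ Y.card)) :=
        mul_le_mul_of_nonneg_left h2 hr
    _ = 2 ^ S.card * (q : ℝ) ^ (X.card * Y.card) * (ind (Rst f κ S x) *
          ((q : ℝ)⁻¹ ^ (X.card * Y.card) * gB x ^ X.card * gC x ^ Y.card)) := by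
        rw [inv_pow]; field_simp
    _ ≤ _ := mul_le_mul_of_nonneg_left h3 hK.le

end Pool.Agent.P.MP_4cb405_co.Pk
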