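import Mathlib

/-! Nested bundles: an index at which every colour is progress. -/

set_option autoImplicit false
set_option linter.unusedSectionVars false

namespace Pool.Agent.P.MP_4cb405_co.Pk

open Finset Function

variable {ι : Type} [DecidableEq ι]

/-- The number of births allowed to a system with `j` colours. -/
def Bd (w : ℕ) : ℕ → ℕ
  | 0 => 0
  | j + 1 => w * ((w + 1) * Bd w j + 1) + Bd w j

lemma Bd_lt (w : ℕ) : ∀ j, Bd w j + 1 ≤ (w + 1) ^ (2 * j)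
  | 0 => le_rfl
  | j + 1 => by
    have := Bd_lt w j
    rw [Bd, show 2 * (j + 1) = 2 * j + 2 by ring, pow_add]
    nlinarith [Nat.mul_le_mul_right ((w + 1) ^ 2) this, Nat.zero_le (w * Bd w j),
      Nat.zero_le (w * w)]

/-- The invariant of a system with `j` colours and at most `μ` further births. -/
def Inv (w : ℕ) (P : ℕ → ℕ → (ℕ → ι) → Prop) : ℕ → ℕ → Finset ι → Prop
  | 0, _, X => X.Nonempty
  | j + 1, μ, X => ∃ e ≤ w, ∃ (Xs : ℕ → Finset ι) (μs : ℕ → ℕ),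
      (∀ k ≤ e, Xs k ⊆ X ∧ Inv w P j (μs k) (Xs k)) ∧
      (w - e) * ((w + 1) * Bd w j + 1) + ∑ k ∈ range (e + 1), μs k ≤ μ ∧
      ∀ τ, (∀ k ≤ e, τ k ∈ Xs k) → P j e τ

variable {w : ℕ} {P P' : ℕ → ℕ → (ℕ → ι) → Prop}

lemma Inv.mono : ∀ {j μ μ' : ℕ} {X X' : Finset ι},
    (∀ c e τ, (∀ k ≤ e, τ k ∈ X) → P c e τ → P' c e τ) → X ⊆ X' → μ ≤ μ' →
    Inv w P j μ X → Inv w P' j μ' X'
  | 0, _, _, _, _, _, hX, _, h => Nonempty.mono hX h
  | _ + 1, _, _, _, _, H, hX, hμ, ⟨e, he, Xs, μs, h1, h2, h3⟩ =>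
    ⟨e, he, Xs, μs, fun k hk => ⟨(h1 k hk).1.trans hX, Inv.mono
      (fun c e' τ hτ => H c e' τ fun a ha => (h1 k hk).1 (hτ a ha)) Subset.rfl le_rfl (h1 k hk).2⟩,
      h2.trans hμ, fun τ hτ => H _ e τ (fun k hk => (h1 k hk).1 (hτ k hk)) (h3 τ hτ)⟩

lemma Inv.fresh (H : ∀ c τ, P c 0 τ) (x : ι) : ∀ j, Inv w P j (Bd w j) {x}
  | 0 => singleton_nonempty x
  | j + 1 => ⟨0, Nat.zero_le _, fun _ => {x}, fun _ => Bd w j,
      fun _ _ => ⟨Subset.rfl, Inv.fresh H x j⟩, by simp [Bd], fun τ _ => H j τ⟩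

/-- A new index is inserted after the place `k`. -/
def ins (τ : ℕ → ι) (k : ℕ) (n : ι) (a : ℕ) : ι :=
  if a ≤ k then τ a else if a = k + 1 then n else τ (a - 1)

/-- The parent of an index after `i` has been split into `i` and `n`. -/
def par (i n x : ι) : ι := if x = n then i else x

lemma par_of {X : Finset ι} {i n x : ι} (hn : n ∉ X) (hx : x ∈ X) : par i n x = x :=
  if_neg fun e : x = n => hn (e ▸ hx)

lemma offer (Tk : ℕ → ℕ → (ℕ → ι) → ℕ → Prop) : ∀ {j μ : ℕ} {X : Finset ι}, Inv w P j μ X →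
    (∀ c < j, ∀ e τ, (∀ k ≤ e, τ k ∈ X) → P c e τ → ∃ k ≤ e, Tk c e τ k) →
    ∃ i ∈ X, ∀ c < j, ∃ e τ k, e ≤ w ∧ k ≤ e ∧ τ k = i ∧ Tk c e τ k ∧
      ∀ (P' : ℕ → ℕ → (ℕ → ι) → Prop) (n : ι), n ∉ X → (∀ a ≤ e, τ a ≠ n) ∧
        ((∀ c' e' τ τ', (∀ a ≤ e', τ a = par i n (τ' a)) → P c' e' τ → P' c' e' τ') →
        (∀ c' τ', P' c' 0 τ') → e < w →
        (∀ τ', (∀ a ≤ e + 1, τ' a = ins τ k n a) → P' c (e + 1) τ') →
        ∃ μ' < μ, Inv w P' j μ' (insert n X))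
  | 0, _, _, ⟨i, hi⟩, _ => ⟨i, hi, fun c hc => absurd hc (Nat.not_lt_zero c)⟩
  | j + 1, μ, X, ⟨e, he, Xs, μs, h1, h2, h3⟩, hT => by
    have key : ∃ k ≤ e, ∀ i ∈ Xs k, ∃ τ : ℕ → ι, (∀ a ≤ e, τ a ∈ Xs a) ∧ τ k = i ∧ Tk j e τ k := by
      by_contra hc
      push Not at hc
      have : Nonempty ι := ⟨(hc 0 (Nat.zero_le _)).choose⟩
      choose! τ hτ1 hτ2 using hc
      obtain ⟨k, hk, h4⟩ := hT j (Nat.lt_succ_self j) e τ
        (fun k hk => (h1 k hk).1 (hτ1 k hk)) (h3 τ hτ1)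
      exact hτ2 k hk τ hτ1 rfl h4
    obtain ⟨k0, hk0, key⟩ := key
    obtain ⟨i, hi, H⟩ := offer Tk (h1 k0 hk0).2 fun c hc e' τ hτ =>
      hT c (hc.trans (Nat.lt_succ_self j)) e' τ fun k hk => (h1 k0 hk0).1 (hτ k hk)
    refine ⟨i, (h1 k0 hk0).1 hi, fun c hc => ?_⟩
    rcases Nat.lt_succ_iff_lt_or_eq.1 hc with hc | rfl
    · obtain ⟨e', τ, k, a1, a2, a3, a4, a5⟩ := H c hc
      refine ⟨e', τ, k, a1, a2, a3, a4, fun P' n hn => ?_⟩
      have hn' : n ∉ Xs k0 := fun h => hn ((h1 k0 hk0).1 h)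
      refine ⟨(a5 P' n hn').1, fun b1 b2 b3 b4 => ?_⟩
      obtain ⟨μ', c1, c2⟩ := (a5 P' n hn').2 b1 b2 b3 b4
      have hs : ∑ k ∈ range (e + 1), update μs k0 μ' k < ∑ k ∈ range (e + 1), μs k :=
        sum_lt_sum (fun k _ => by
          by_cases e1 : k = k0
          · subst e1; rw [update_self]; exact c1.le
          · rw [update_of_ne e1]) ⟨k0, mem_range.2 (by omega), by rwa [update_self]⟩
      refine ⟨μ - 1, by omega, e, he, update Xs k0 (insert n (Xs k0)), update μs k0 μ',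
        fun k hk => ?_, by omega, fun τ' hτ' => b1 j e _ τ' (fun _ _ => rfl) (h3 _ fun k hk => ?_)⟩
      · by_cases e1 : k = k0
        · subst e1
          rw [update_self, update_self]
          exact ⟨insert_subset_insert _ (h1 k hk).1, c2⟩
        · rw [update_of_ne e1, update_of_ne e1]
          exact ⟨(h1 k hk).1.trans (subset_insert _ _), Inv.mono (fun c e τ hτ =>
            b1 c e τ τ fun a ha => (par_of hn ((h1 k hk).1 (hτ a ha))).symm) Subset.rfl le_rfl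
            (h1 k hk).2⟩
      · have h4 := hτ' k hk
        by_cases e1 : k = k0
        · subst e1
          rw [update_self, mem_insert] at h4
          rcases h4 with h4 | h4
          · rwa [par, if_pos h4]
          · rwa [par_of hn' h4]
        · rw [update_of_ne e1] at h4
          rwa [par_of hn ((h1 k hk).1 h4)]
    · obtain ⟨τ, a1, a2, a3⟩ := key i hi
      refine ⟨e, τ, k0, he, hk0, a2, a3, fun P' n hn => ⟨fun a ha e1 =>
        hn (e1 ▸ (h1 a ha).1 (a1 a ha)), fun _ b2 b3 b4 => ?_⟩⟩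
      have h5 : (w - (e + 1)) * ((w + 1) * Bd w c + 1) + ∑ _k ∈ range (e + 1 + 1), Bd w c < μ := by
        rw [sum_const, card_range, smul_eq_mul]
        rw [show w - e = w - (e + 1) + 1 by omega, add_mul] at h2
        have := Nat.mul_le_mul_right (Bd w c) (show e + 1 + 1 ≤ w + 1 by omega)
        omega
      refine ⟨_, h5, e + 1, b3, fun a => {ins τ k0 n a}, fun _ => Bd w c, fun a ha =>
        ⟨singleton_subset_iff.2 ?_, Inv.fresh b2 _ c⟩, le_rfl, fun τ' hτ' =>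
        b4 τ' fun a ha => mem_singleton.1 (hτ' a ha)⟩
      unfold ins
      split_ifs with e1 e2
      · exact mem_insert_of_mem ((h1 a (by omega)).1 (a1 a (by omega)))
      · exact mem_insert_self _ _
      · exact mem_insert_of_mem ((h1 _ (by omega)).1 (a1 _ (by omega)))

end Pool.Agent.P.MP_4cb405_co.Pk
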