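import Pool.Agent.P.MP_4cb405_co.Pk.A
import Pool.Agent.P.MP_4cb405_co.Pk.G
import Pool.Agent.P.MP_4cb405_co.Basic

/-! Partial copies of the pattern on classes of tokens. -/

set_option autoImplicit false
set_option linter.unusedSectionVars false

namespace Pool.Agent.P.MP_4cb405_co.Pk

open Finset Function
open scoped Classical

variable {ι T : Type} [Fintype ι] [DecidableEq ι] [Fintype T] [DecidableEq T] {q : ℕ}

/-- Classes of tokens, their ranges, the constraints and the height. -/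
structure Sta (ι T : Type) (q : ℕ) where
  S : ι → Finset T
  A : T → Finset ℕ
  κ : T → T → Option (Fin q)
  h : ℕ

/-- The ranges shrink and the constraints stay. -/
structure Ref (σ σ' : Sta ι T q) : Prop where
  sub : ∀ a, σ'.A a ⊆ σ.A a
  col : ∀ a b c, σ.κ a b = some c → σ'.κ a b = some c
  ht : σ'.h ≤ σ.h

/-- The gap `g` is opened before both of its neighbours. -/
def peak (n : ℕ) (ρ : ℕ → ℕ) (g : ℕ) : Prop :=
  0 < g ∧ g + 1 < n ∧ ρ g < ρ (g - 1) ∧ ρ g < ρ (g + 1)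

/-- The number of peaks of rank below `r`. -/
noncomputable def stage (n : ℕ) (ρ : ℕ → ℕ) (r : ℕ) : ℕ :=
  ((range n).filter fun g => peak n ρ g ∧ ρ g < r).card

/-- The data of a partial copy. -/
structure Dat (T : Type) where
  live : ℕ → Prop
  blk : ℕ → ℕ
  tok : ℕ → T
  lam : ℕ → ℕ

/-- The token `a` may play the vertex `k`. -/
def In (S : ℕ → Finset T) (d : Dat T) (k : ℕ) (a : T) : Prop :=
  (d.live k ∧ a ∈ S (d.blk k)) ∨ (¬ d.live k ∧ a = d.tok k)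

/-- A partial copy in colour `c`: the gaps of rank below `r` are open. -/
structure St (n : ℕ) (ρ : ℕ → ℕ) (σ : Sta ι T q) (c : Fin q) (r e : ℕ) (S : ℕ → Finset T)
    (d : Dat T) : Prop where
  cl : ∀ g < n, r ≤ ρ g → d.live g ∧ d.live (g + 1) ∧ d.blk g = d.blk (g + 1)
  le : ∀ k ≤ n, d.live k → d.blk k ≤ e
  mono : ∀ k l, k < l → l ≤ n → d.live k → d.live l →
    d.blk k ≤ d.blk l ∧ (d.blk k = d.blk l → ∀ g, k ≤ g → g < l → r ≤ ρ g)
  col : ∀ k l, k < l → l ≤ n → ¬ (d.live k ∧ d.live l ∧ d.blk k = d.blk l) →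
    ∀ a b, In S d k a → In S d l b → σ.κ a b = some c
  gap : ∀ g < n, ρ g < r → σ.h ≤ d.lam g ∧ ∀ a b, In S d g a → In S d (g + 1) b →
    ∀ u ∈ σ.A a, ∀ v ∈ σ.A b, u + 3 ^ d.lam g ≤ v ∧ v < u + 3 ^ (d.lam g + 1)
  ord : ∀ g < n, ∀ g' < n, ρ g < ρ g' → ρ g' < r → d.lam g' < d.lam g
  stg : e ≤ stage n ρ r

/-- A monochromatic copy of the pattern below `N`. -/
def Win (f : ℕ → ℕ → Fin q) (N n : ℕ) (ρ : ℕ → ℕ) : Prop :=
  ∃ (c : Fin q) (a : ℕ → ℕ), (∀ k ≤ n, a k < N) ∧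
    (∀ k l, k < l → l ≤ n → a k < a l ∧ f (a k) (a l) = c) ∧
    ∀ g < n, ∀ g' < n, ρ g < ρ g' → a (g' + 1) - a g' < a (g + 1) - a g

variable {n : ℕ} {ρ : ℕ → ℕ} {σ σ' : Sta ι T q} {c : Fin q} {r e : ℕ} {S S' : ℕ → Finset T}
  {d : Dat T}

lemma St.start (n : ℕ) (ρ : ℕ → ℕ) (σ : Sta ι T q) (c : Fin q) (S : ℕ → Finset T) (a : T) :
    St n ρ σ c 0 0 S ⟨fun _ => True, fun _ => 0, fun _ => a, fun _ => 0⟩ :=
  ⟨by simp, by simp, by simp, by simp, by simp, by simp, by simp⟩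

lemma St.ref (H : St n ρ σ c r e S d) (hr : Ref σ σ') (hS : ∀ a ≤ e, S' a ⊆ S a) :
    St n ρ σ' c r e S' d := by
  have hin : ∀ k ≤ n, ∀ a, In S' d k a → In S d k a := fun k hk a h =>
    h.imp_left fun h => ⟨h.1, hS _ (H.le k hk h.1) h.2⟩
  exact ⟨H.cl, H.le, H.mono, fun k l h1 h2 h3 a b ha hb => hr.col _ _ _
    (H.col k l h1 h2 h3 a b (hin k (by omega) a ha) (hin l h2 b hb)), fun g hg h1 =>
    ⟨hr.ht.trans (H.gap g hg h1).1, fun a b ha hb u hu v hv => (H.gap g hg h1).2 a b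
      (hin g hg.le a ha) (hin _ hg b hb) u (hr.sub a hu) v (hr.sub b hv)⟩, H.ord, H.stg⟩

lemma St.win {f : ℕ → ℕ → Fin q} {N : ℕ} (H : St n ρ σ c n e S d) (hρ : ∀ g < n, ρ g < n)
    (hS : ∀ a ≤ e, (S a).Nonempty) (hN : ∀ a, ∀ u ∈ σ.A a, u < N) {x : T → ℕ}
    (hx : ∀ a, x a ∈ σ.A a) (hf : Fits f σ.κ x) : Win f N n ρ := by
  have h1 : ∀ k, ∃ a, k ≤ n → In S d k a := fun k => by
    by_cases hk : k ≤ n ∧ d.live k
    · obtain ⟨a, ha⟩ := hS _ (H.le k hk.1 hk.2)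
      exact ⟨a, fun _ => Or.inl ⟨hk.2, ha⟩⟩
    · exact ⟨_, fun h => Or.inr ⟨fun h2 => hk ⟨h, h2⟩, rfl⟩⟩
  choose t ht using h1
  refine ⟨c, fun k => x (t k), fun k _ => hN _ _ (hx _), fun k l h1 h2 => hf _ _ _
    (H.col k l h1 h2 (fun h => ?_) _ _ (ht k (by omega)) (ht l h2)), fun g hg g' hg' h => ?_⟩
  · have := (H.mono k l h1 h2 h.1 h.2.1).2 h.2.2 k le_rfl h1
    have := hρ k (by omega)
    omega
  · have h1 := (H.gap g hg (hρ g hg)).2 _ _ (ht g hg.le) (ht _ hg) _ (hx _) _ (hx _)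
    have h2 := (H.gap g' hg' (hρ g' hg')).2 _ _ (ht g' hg'.le) (ht _ hg') _ (hx _) _ (hx _)
    have h3 := Nat.pow_le_pow_right (show 0 < 3 by norm_num)
      (Nat.succ_le_of_lt (H.ord g hg g' hg' h (hρ g' hg')))
    have : 0 < 3 ^ d.lam g' := by positivity
    simp only [Nat.succ_eq_add_one] at h3 ⊢
    omega

/-- The result of a split into `X` and `Y` in colour `c`. -/
structure Cut (σ σ' : Sta ι T q) (c : Fin q) (X Y : Finset T) : Prop extends Ref σ σ' where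
  lt : σ'.h < σ.h
  new : ∀ a ∈ X, ∀ b ∈ Y, σ'.κ a b = some c ∧
    ∀ u ∈ σ'.A a, ∀ v ∈ σ'.A b, u + 3 ^ σ'.h ≤ v ∧ v < u + 3 ^ (σ'.h + 1)

lemma St.adv (H : St n ρ σ c r e S d) (hρ : ∀ g < n, ∀ g' < n, ρ g = ρ g' → g = g')
    {g : ℕ} (hg : g < n) (hr : ρ g = r) {X Y : Finset T} (hc : Cut σ σ' c X Y) {e' : ℕ}
    {d' : Dat T} (hlam : d'.lam = update d.lam g σ'.h)
    (hin : ∀ k ≤ n, ∀ a, In S' d' k a → In S d k a)
    (hX : ∀ k ≤ g, d.live k → d.blk k = d.blk g → ∀ a, In S' d' k a → a ∈ X)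
    (hY : ∀ l ≤ n, g < l → d.live l → d.blk l = d.blk g → ∀ b, In S' d' l b → b ∈ Y)
    (hsame : ∀ k l, k < l → l ≤ n → d.live k → d.live l → d.blk k = d.blk l → l ≤ g ∨ g < k →
      d'.live k ∧ d'.live l ∧ d'.blk k = d'.blk l)
    (hsep : ∀ k l, k < l → l ≤ n → d'.live k → d'.live l → d'.blk k ≤ d'.blk l ∧
      (d'.blk k = d'.blk l → d.live k ∧ d.live l ∧ d.blk k = d.blk l ∧ (l ≤ g ∨ g < k)))
    (hle : ∀ k ≤ n, d'.live k → d'.blk k ≤ e') (hstg : e' ≤ stage n ρ (r + 1)) :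
    St n ρ σ' c (r + 1) e' S' d' := by
  obtain ⟨g1, g2, g3⟩ := H.cl g hg hr.ge
  refine ⟨fun g' hg' h => ?_, hle, fun k l h1 h2 h3 h4 => ⟨(hsep k l h1 h2 h3 h4).1,
    fun h5 g' h6 h7 => ?_⟩, fun k l h1 h2 h3 a b ha hb => ?_, fun g' hg' h => ?_,
    fun g' hg' g'' hg'' h1 h2 => ?_, hstg⟩
  · obtain ⟨a1, a2, a3⟩ := H.cl g' hg' (by omega)
    have : g' ≠ g := fun e1 => by subst e1; omega
    exact hsame g' (g' + 1) (by omega) hg' a1 a2 a3 (by omega)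
  · obtain ⟨a1, a2, a3, a4⟩ := (hsep k l h1 h2 h3 h4).2 h5
    have h8 := (H.mono k l h1 h2 a1 a2).2 a3 g' h6 h7
    have h9 : ρ g' ≠ ρ g := fun e1 => by have := hρ g' (by omega) g hg e1; omega
    omega
  · by_cases h4 : d.live k ∧ d.live l ∧ d.blk k = d.blk l
    · have h5 : ¬ (l ≤ g ∨ g < k) := fun h5 => h3 (hsame k l h1 h2 h4.1 h4.2.1 h4.2.2 h5)
      have h6 : d.blk k ≤ d.blk g := by
        rcases (show k ≤ g by omega).eq_or_lt with rfl | h6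
        exacts [le_rfl, (H.mono k g h6 hg.le h4.1 g1).1]
      have h7 := (H.mono g l (by omega) h2 g1 h4.2.1).1
      exact (hc.new a (hX k (by omega) h4.1 (by omega) a ha) b
        (hY l h2 (by omega) h4.2.1 (by omega) b hb)).1
    · exact hc.col _ _ _ (H.col k l h1 h2 h4 a b (hin k (by omega) a ha) (hin l h2 b hb))
  · rw [hlam]
    by_cases e1 : g' = g
    · subst e1
      rw [update_self]
      exact ⟨le_rfl, fun a b ha hb => (hc.new a (hX _ le_rfl g1 rfl a ha) b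
        (hY _ hg (by omega) g2 g3.symm b hb)).2⟩
    · have h9 : ρ g' ≠ ρ g := fun e2 => e1 (hρ g' hg' g hg e2)
      obtain ⟨a1, a2⟩ := H.gap g' hg' (by omega)
      rw [update_of_ne e1]
      exact ⟨hc.ht.trans a1, fun a b ha hb u hu v hv =>
        a2 a b (hin _ hg'.le a ha) (hin _ hg' b hb) u (hc.sub a hu) v (hc.sub b hv)⟩
  · have e0 : g' ≠ g := fun e1 => by subst e1; omega
    rw [hlam, update_of_ne e0]
    by_cases e1 : g'' = g
    · subst e1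
      rw [update_self]
      exact hc.lt.trans_le (H.gap g' hg' (by omega)).1
    · have h9 : ρ g'' ≠ ρ g := fun e2 => e1 (hρ g'' hg'' g hg e2)
      rw [update_of_ne e1]
      exact H.ord g' hg' g'' hg'' h1 (by omega)

lemma stage_mono (n : ℕ) (ρ : ℕ → ℕ) (r : ℕ) : stage n ρ r ≤ stage n ρ (r + 1) :=
  card_le_card fun g hg => by
    simp only [mem_filter] at hg ⊢
    exact ⟨hg.1, hg.2.1, by omega⟩

/-- The vertex `p` (one of the ends of the gap `g`) is fixed at the token `a₀`. -/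
lemma St.pend (H : St n ρ σ c r e S d) (hρ : ∀ g < n, ∀ g' < n, ρ g = ρ g' → g = g')
    {g : ℕ} (hg : g < n) (hr : ρ g = r) {a₀ : T} (ha : a₀ ∈ S (d.blk g)) {X Y : Finset T}
    (hc : Cut σ σ' c X Y) (hS : ∀ a ≤ e, S' a ⊆ S a)
    (hp : ((g = 0 ∨ ρ (g - 1) < r) ∧ a₀ ∈ X ∧ S' (d.blk g) ⊆ Y) ∨
      ((g + 1 = n ∨ ρ (g + 1) < r) ∧ a₀ ∈ Y ∧ S' (d.blk g) ⊆ X)) :
    ∃ d', St n ρ σ' c (r + 1) e S' d' := by
  obtain ⟨g1, g2, g3⟩ := H.cl g hg hr.ge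
  obtain ⟨p, hp1, hp2, hp3, hp4⟩ : ∃ p, (p = g ∨ p = g + 1) ∧
      (∀ k l, k < l → l ≤ n → d.live k → d.live l → d.blk k = d.blk l →
        (p = g → g ≤ k ∨ l < g) ∧ (p = g + 1 → l ≤ g + 1 ∨ g + 1 < k)) ∧
      (p = g → a₀ ∈ X ∧ S' (d.blk g) ⊆ Y) ∧ (p = g + 1 → a₀ ∈ Y ∧ S' (d.blk g) ⊆ X) := by
    rcases hp with ⟨h1, h2⟩ | ⟨h1, h2⟩
    · refine ⟨g, Or.inl rfl, fun k l a1 a2 a3 a4 a5 => ⟨fun _ => ?_, by omega⟩, fun _ => h2,
        by omega⟩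
      by_contra hc
      have := (H.mono k l a1 a2 a3 a4).2 a5 (g - 1) (by omega) (by omega)
      omega
    · refine ⟨g + 1, Or.inr rfl, fun k l a1 a2 a3 a4 a5 => ⟨by omega, fun _ => ?_⟩, by omega,
        fun _ => h2⟩
      by_contra hc
      have := (H.mono k l a1 a2 a3 a4).2 a5 (g + 1) (by omega) (by omega)
      omega
  have hpl : d.live p ∧ d.blk p = d.blk g := by rcases hp1 with rfl | rfl <;> simp [*]
  have hI : ∀ k a, In S' ⟨fun k => d.live k ∧ k ≠ p, d.blk, update d.tok p a₀,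
      update d.lam g σ'.h⟩ k a → d.live k → (k = p ∧ a = a₀) ∨ (k ≠ p ∧ a ∈ S' (d.blk k)) := by
    rintro k a (⟨h1, h2⟩ | ⟨h1, h2⟩) h3
    · exact Or.inr ⟨h1.2, h2⟩
    · obtain rfl : k = p := by by_contra h; exact h1 ⟨h3, h⟩
      exact Or.inl ⟨rfl, by simpa using h2⟩
  refine ⟨_, H.adv hρ hg hr hc (d' := ⟨fun k => d.live k ∧ k ≠ p, d.blk, update d.tok p a₀,
    update d.lam g σ'.h⟩) rfl (fun k hk a h => ?_) (fun k hk h1 h2 a h => ?_)
    (fun l hl h0 h1 h2 a h => ?_) (fun k l a1 a2 a3 a4 a5 a6 => ?_)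
    (fun k l a1 a2 a3 a4 => ⟨(H.mono k l a1 a2 a3.1 a4.1).1, fun a5 => ⟨a3.1, a4.1, a5, ?_⟩⟩)
    (fun k hk h => H.le k hk h.1) (H.stg.trans (stage_mono n ρ r))⟩
  · by_cases h1 : d.live k
    · rcases hI k a h h1 with ⟨rfl, rfl⟩ | ⟨-, h2⟩
      · exact Or.inl ⟨h1, hpl.2 ▸ ha⟩
      · exact Or.inl ⟨h1, hS _ (H.le k hk h1) h2⟩
    · rcases h with h | h
      · exact absurd h.1.1 h1
      · exact Or.inr ⟨h1, h.2.trans (update_of_ne (fun e1 : k = p => h1 (e1 ▸ hpl.1)) _ _)⟩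
  · rcases hI k a h h1 with ⟨rfl, rfl⟩ | ⟨h3, h4⟩
    · exact (hp3 (by omega)).1
    · rcases hp1 with rfl | rfl
      · have := (hp2 k p (by omega) hg.le h1 g1 h2).1 rfl
        omega
      · exact (hp4 rfl).2 (h2 ▸ h4)
  · rcases hI l a h h1 with ⟨rfl, rfl⟩ | ⟨h3, h4⟩
    · exact (hp4 (by omega)).1
    · rcases hp1 with rfl | rfl
      · exact (hp3 rfl).2 (h2 ▸ h4)
      · have := (hp2 g l h0 hl g1 h1 h2.symm).2 rfl
        omega
  · have := hp2 k l a1 a2 a3 a4 a5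
    exact ⟨⟨a3, by omega⟩, ⟨a4, by omega⟩, a5⟩
  · have := hp2 k l a1 a2 a3.1 a4.1 a5
    have := a3.2
    have := a4.2
    omega

/-- The gap `g` is a peak: its class is split. -/
lemma St.birth (H : St n ρ σ c r e S d) (hρ : ∀ g < n, ∀ g' < n, ρ g = ρ g' → g = g')
    {g : ℕ} (hg : g < n) (hr : ρ g = r) (hp : peak n ρ g) {X Y : Finset T}
    (hc : Cut σ σ' c X Y) (hY : Y ⊆ S (d.blk g)) (h1 : ∀ a ≤ d.blk g, S' a ⊆ S a)
    (h2 : S' (d.blk g) ⊆ X) (h3 : S' (d.blk g + 1) ⊆ Y)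
    (h4 : ∀ a ≤ e, d.blk g < a → S' (a + 1) ⊆ S a) :
    e + 1 ≤ stage n ρ (r + 1) ∧ ∃ d', St n ρ σ' c (r + 1) (e + 1) S' d' := by
  obtain ⟨g1, g2, g3⟩ := H.cl g hg hr.ge
  have hs : e + 1 ≤ stage n ρ (r + 1) := by
    refine Nat.succ_le_of_lt (H.stg.trans_lt (card_lt_card ⟨fun k hk => ?_, fun h => ?_⟩))
    · simp only [mem_filter] at hk ⊢
      exact ⟨hk.1, hk.2.1, by omega⟩
    · have := (mem_filter.1 (h (mem_filter.2 ⟨mem_range.2 hg, hp, by omega⟩))).2.2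
      omega
  have hl : ∀ k ≤ g, d.live k → d.blk k ≤ d.blk g := fun k hk h => by
    rcases hk.eq_or_lt with rfl | h6
    exacts [le_rfl, (H.mono k g h6 hg.le h g1).1]
  have hm : ∀ k l, k < l → l ≤ n → d.live k → d.live l → d.blk k ≤ d.blk l :=
    fun k l a1 a2 a3 a4 => (H.mono k l a1 a2 a3 a4).1
  refine ⟨hs, _, H.adv hρ hg hr hc (d' := ⟨d.live, fun k => if k ≤ g then d.blk k else d.blk k + 1,
    d.tok, update d.lam g σ'.h⟩) rfl (fun k hk a h => h.imp_left fun h => ⟨h.1, ?_⟩)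
    (fun k hk a1 a2 a h => ?_) (fun l hl h0 a1 a2 a h => ?_)
    (fun k l a1 a2 a3 a4 a5 a6 => ⟨a3, a4, ?_⟩) (fun k l a1 a2 a3 a4 => ?_)
    (fun k hk h => ?_) hs⟩
  · obtain ⟨a1, a2⟩ := h
    simp only at a1 a2
    split_ifs at a2 with a3
    · exact h1 _ (hl k a3 a1) a2
    · rcases (hm g k (by omega) hk g1 a1).eq_or_lt with a4 | a4
      · exact a4 ▸ hY (h3 (a4 ▸ a2))
      · exact h4 _ (H.le k hk a1) a4 a2
  · rcases h with h | h
    · exact h2 (by simpa [hk, a2] using h.2)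
    · exact absurd a1 h.1
  · rcases h with h | h
    · exact h3 (by simpa [h0.not_ge, a2] using h.2)
    · exact absurd a1 h.1
  · simp only
    split_ifs <;> omega
  · have := hm k l a1 a2 a3 a4
    simp only at a3 a4 ⊢
    split_ifs <;> simp [a3, a4] <;> omega
  · have := H.le k hk h
    simp only
    split_ifs <;> omega

end Pool.Agent.P.MP_4cb405_co.Pk
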