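import Pool.Agent.P.MP_4cb405_co.Pk.B
import Pool.Agent.P.MP_4cb405_co.Pk.D

/-! One round on a state. -/

set_option autoImplicit false
set_option linter.unusedSectionVars false

namespace Pool.Agent.P.MP_4cb405_co.Pk

open Finset Function
open scoped Classical

variable {ι T : Type} [Fintype ι] [DecidableEq ι] [Fintype T] [DecidableEq T] {q : ℕ}

/-- The classes are disjoint, exchangeable and sit on cells of the current height. -/
structure Good (N : ℕ) (σ : Sta ι T q) : Prop where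
  ne : NE σ.A
  lt : ∀ a, ∀ u ∈ σ.A a, u < N
  dis : ∀ j k, j ≠ k → Disjoint (σ.S j) (σ.S k)
  cls : ∀ j, Cls σ.κ (σ.S j)
  cell : ∀ j, ∃ o, ∀ a ∈ σ.S j, σ.A a = Cs σ.h o

lemma Z_le_one (f : ℕ → ℕ → Fin q) (κ : T → T → Option (Fin q)) {A : T → Finset ℕ} (h : NE A) :
    Z f κ A ≤ 1 := expect_le h.pi fun _ _ => ind_le_one _

lemma fits_of_Z {f : ℕ → ℕ → Fin q} {κ : T → T → Option (Fin q)} {A : T → Finset ℕ} (h : NE A)
    (hZ : 0 < Z f κ A) : ∃ x, (∀ a, x a ∈ A a) ∧ Fits f κ x := by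
  obtain ⟨x, h1, h2⟩ := Av_ex h (le_refl (Z f κ A))
  refine ⟨x, h1, by_contra fun h3 => ?_⟩
  simp only [ind, h3, if_false] at h2
  linarith

lemma put_mem {A : T → Finset ℕ} {S : Finset T} {B : Finset ℕ} {a : T} (h : a ∈ S) :
    put A S B a = B := if_pos h

lemma put_not {A : T → Finset ℕ} {S : Finset T} {B : Finset ℕ} {a : T} (h : a ∉ S) :
    put A S B a = A a := if_neg h

lemma put_sub {A : T → Finset ℕ} {S : Finset T} {B : Finset ℕ} (h : ∀ a ∈ S, B ⊆ A a) (a : T) :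
    put A S B a ⊆ A a := by
  by_cases e : a ∈ S
  · rw [put_mem e]; exact h a e
  · rw [put_not e]

lemma passJ (hP : S_PASS) (f : ℕ → ℕ → Fin q) {κ : T → T → Option (Fin q)} {S : ι → Finset T}
    {A : T → Finset ℕ} {h : ℕ} (hA : NE A) (hd : ∀ j k, j ≠ k → Disjoint (S j) (S k))
    (J : Finset ι) (hJ : ∀ j ∈ J, Cls κ (S j) ∧ ∃ o, ∀ a ∈ S j, A a = Cs (h + 1) o) :
    ∃ A' : T → Finset ℕ, (∀ a, A' a ⊆ A a) ∧ NE A' ∧ (∀ j ∈ J, ∃ o, ∀ a ∈ S j, A' a = Cs h o) ∧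
      (∀ a, (∀ j ∈ J, a ∉ S j) → A' a = A a) ∧ Z f κ A ≤ Z f κ A' := by
  induction J using Finset.induction_on with
  | empty => exact ⟨A, fun _ => Subset.rfl, hA, by simp, fun _ _ => rfl, le_rfl⟩
  | insert i J hi ih =>
    obtain ⟨A', h1, h2, h3, h4, h5⟩ := ih fun j hj => hJ j (mem_insert_of_mem hj)
    obtain ⟨hc, o, ho⟩ := hJ i (mem_insert_self _ _)
    have hn : ∀ j ∈ J, ∀ a ∈ S j, a ∉ S i := fun j hj a ha =>
      disjoint_left.1 (hd j i fun e => hi (e ▸ hj)) ha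
    have ho' : ∀ a ∈ S i, A' a = Cs h o ∪ Cs h (o + 2 * 3 ^ h) := fun a ha =>
      (h4 a fun j hj hb => hn j hj a hb ha).trans (ho a ha)
    obtain ⟨o', k1, k2⟩ : ∃ o', Cs h o' ⊆ Cs h o ∪ Cs h (o + 2 * 3 ^ h) ∧
        Z f κ A' ≤ Z f κ (put A' (S i) (Cs h o')) := by
      rcases hP T q f κ A' (S i) _ _ h2 hc (Cs_nonempty h o) (Cs_disj h o)
        (by rw [Cs_card, Cs_card]) ho' with h6 | h6
      exacts [⟨_, subset_union_left, h6⟩, ⟨_, subset_union_right, h6⟩]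
    refine ⟨_, fun a => (put_sub (fun a ha => ho' a ha ▸ k1) a).trans (h1 a),
      h2.put _ (Cs_nonempty h o'), fun j hj => ?_, fun a ha => ?_, h5.trans k2⟩
    · rcases mem_insert.1 hj with rfl | hj
      · exact ⟨o', fun a ha => put_mem ha⟩
      · exact (h3 j hj).imp fun _ h6 a ha => (put_not (hn j hj a ha)).trans (h6 a ha)
    · exact (put_not (ha i (mem_insert_self _ _))).trans
        (h4 a fun j hj => ha j (mem_insert_of_mem hj))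

lemma Cls.spl {κ : T → T → Option (Fin q)} {U V X Y : Finset T} (c : Fin q) (hU : Cls κ U)
    (hV : V ⊆ U) (hXY : Disjoint X Y) (h : V = X ∨ V = Y ∨ (Disjoint V X ∧ Disjoint V Y)) :
    Cls (spl κ X Y c) V := by
  have h3 : ∀ a ∈ V, ∀ a' ∈ V, ∀ b ∉ V, κ a b = κ a' b ∧ κ b a = κ b a' := fun a ha a' ha' b hb => by
    by_cases h4 : b ∈ U
    · rw [hU.1 a (hV ha) b h4, hU.1 a' (hV ha') b h4, hU.1 b h4 a (hV ha), hU.1 b h4 a' (hV ha')]
      exact ⟨rfl, rfl⟩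
    · exact hU.2 a (hV ha) a' (hV ha') b h4
  have h4 : ∀ a ∈ V, ∀ a' ∈ V, (a ∈ X ↔ a' ∈ X) ∧ (a ∈ Y ↔ a' ∈ Y) ∧ ¬ (a ∈ X ∧ a' ∈ Y) := by
    intro a ha a' ha'
    simp only [disjoint_left] at h hXY
    rcases h with rfl | rfl | h <;> grind
  refine ⟨fun a ha b hb => ?_, fun a ha a' ha' b hb => ?_⟩
  · rw [Pk.spl, if_neg (h4 a ha b hb).2.2]; exact hU.1 a (hV ha) b (hV hb)
  · simp only [Pk.spl, (h4 a ha a' ha').1, (h4 a ha a' ha').2.1, (h3 a ha a' ha' b hb).1,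
      (h3 a ha a' ha' b hb).2, and_self]

theorem round (hP : S_PASS) (hQ : S_PROBE) (f : ℕ → ℕ → Fin q) {N h : ℕ} {σ : Sta ι T q}
    (hσ : Good N σ) (hh : σ.h = h + 1) (i : ι) :
    (∃ σ' : Sta ι T q, Good N σ' ∧ σ'.h = h ∧ σ'.S = σ.S ∧ Ref σ σ' ∧
      (3 / 2) ^ (σ.S i).card / 4 * Z f σ.κ σ.A ≤ Z f σ'.κ σ'.A) ∨
    ∃ c : Fin q, ∀ X Y : Finset T, Disjoint X Y → X ∪ Y = σ.S i → ∀ S' : ι → Finset T,
      (∀ j k, j ≠ k → Disjoint (S' j) (S' k)) →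
      (∀ j, S' j = X ∨ S' j = Y ∨ (j ≠ i ∧ S' j = σ.S j)) →
      ∃ σ' : Sta ι T q, Good N σ' ∧ σ'.h = h ∧ σ'.S = S' ∧ Cut σ σ' c X Y ∧
        Z f σ.κ σ.A / (2 * q * 2 ^ (σ.S i).card * (q : ℝ) ^ (X.card * Y.card)) ≤
          Z f σ'.κ σ'.A := by
  obtain ⟨o, ho⟩ := hσ.cell i
  rw [hh] at ho
  have hn : ∀ j ∈ univ.erase i, ∀ a ∈ σ.S j, a ∉ σ.S i := fun j hj a ha =>
    disjoint_left.1 (hσ.dis j i (ne_of_mem_erase hj)) ha
  have h3 : 0 < 3 ^ h := by positivity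
  have hG : ∀ o', Cs h o' ⊆ Cs h o ∪ Cs h (o + 2 * 3 ^ h) → ∃ σ' : Sta ι T q, Good N σ' ∧
      σ'.h = h ∧ σ'.S = σ.S ∧ Ref σ σ' ∧
      Z f σ.κ (put σ.A (σ.S i) (Cs h o')) ≤ Z f σ'.κ σ'.A := fun o' k1 => by
    obtain ⟨A', h1, h2, h3, h4, h5⟩ := passJ (h := h) hP f (hσ.ne.put (σ.S i) (Cs_nonempty h o'))
      hσ.dis (univ.erase i) fun j hj => ⟨hσ.cls j, (hσ.cell j).imp fun _ h6 a ha =>
        (put_not (hn j hj a ha)).trans (hh ▸ h6 a ha)⟩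
    have h6 : ∀ a, A' a ⊆ σ.A a := fun a => (h1 a).trans (put_sub (fun a ha => ho a ha ▸ k1) a)
    refine ⟨⟨σ.S, A', σ.κ, h⟩, ⟨h2, fun a u hu => hσ.lt a u (h6 a hu), hσ.dis, hσ.cls,
      fun j => ?_⟩, rfl, rfl, ⟨h6, fun _ _ _ h => h, hh ▸ Nat.le_succ h⟩, h5⟩
    by_cases e : j = i
    · exact ⟨o', fun a ha => (h4 a fun k hk hb => hn k hk a hb (e ▸ ha)).trans (put_mem (e ▸ ha))⟩
    · exact h3 j (by simp [e])
  rcases hQ T q f σ.κ σ.A (σ.S i) _ _ hσ.ne (hσ.cls i) (Cs_nonempty h o) (Cs_disj h o)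
    (by rw [Cs_card, Cs_card]) ho (fun u hu v hv => by
      have := Cs_range _ _ _ hu
      have := Cs_range _ _ _ hv
      omega) with h6 | h6 | ⟨c, h6⟩
  · obtain ⟨σ', a1, a2, a3, a4, a5⟩ := hG _ subset_union_left
    exact Or.inl ⟨σ', a1, a2, a3, a4, h6.trans a5⟩
  · obtain ⟨σ', a1, a2, a3, a4, a5⟩ := hG _ subset_union_right
    exact Or.inl ⟨σ', a1, a2, a3, a4, h6.trans a5⟩
  refine Or.inr ⟨c, fun X Y hXY hU S' hd hS' => ?_⟩
  have hX : X ⊆ σ.S i := hU ▸ subset_union_left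
  have hY : Y ⊆ σ.S i := hU ▸ subset_union_right
  have hc : ∀ j ≠ i, Cls (spl σ.κ X Y c) (σ.S j) := fun j hj => (hσ.cls j).spl c Subset.rfl hXY
    (Or.inr (Or.inr ⟨(hσ.dis j i hj).mono_right hX, (hσ.dis j i hj).mono_right hY⟩))
  obtain ⟨A', h1, h2, h3, h4, h5⟩ := passJ (h := h) hP f
    ((hσ.ne.put X (Cs_nonempty h o)).put Y (Cs_nonempty h (o + 2 * 3 ^ h))) hσ.dis (univ.erase i)
    fun j hj => ⟨hc j (ne_of_mem_erase hj), (hσ.cell j).imp fun _ h6 a ha =>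
      (put_not fun e => hn j hj a ha (hY e)).trans
        ((put_not fun e => hn j hj a ha (hX e)).trans (hh ▸ h6 a ha))⟩
  have eY : ∀ a ∈ Y, A' a = Cs h (o + 2 * 3 ^ h) := fun a ha =>
    (h4 a fun k hk hb => hn k hk a hb (hY ha)).trans (put_mem ha)
  have eX : ∀ a ∈ X, A' a = Cs h o := fun a ha =>
    (h4 a fun k hk hb => hn k hk a hb (hX ha)).trans
      ((put_not (disjoint_left.1 hXY ha)).trans (put_mem ha))
  have h7 : ∀ a, A' a ⊆ σ.A a := fun a => by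
    by_cases a1 : a ∈ Y
    · rw [eY a a1, ho a (hY a1)]; exact subset_union_right
    · exact (h1 a).trans ((put_not a1).subset.trans
        (put_sub (fun a ha => ho a (hX ha) ▸ subset_union_left) a))
  refine ⟨⟨S', A', spl σ.κ X Y c, h⟩, ⟨h2, fun a u hu => hσ.lt a u (h7 a hu), hd, fun j => ?_,
    fun j => ?_⟩, rfl, rfl, ⟨⟨h7, fun a b c' e => ?_, hh ▸ Nat.le_succ h⟩,
    hh ▸ Nat.lt_succ_self h, fun a ha b hb => ⟨if_pos ⟨ha, hb⟩, fun u hu v hv => ?_⟩⟩,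
    (h6 X Y hXY hU).trans h5⟩
  · rcases hS' j with e | e | ⟨e1, e⟩ <;> simp only [e]
    · exact (hσ.cls i).spl c hX hXY (Or.inl rfl)
    · exact (hσ.cls i).spl c hY hXY (Or.inr (Or.inl rfl))
    · exact hc j e1
  · rcases hS' j with e | e | ⟨e1, e⟩ <;> simp only [e]
    · exact ⟨_, eX⟩
    · exact ⟨_, eY⟩
    · exact h3 j (by simp [e1])
  · refine (if_neg fun e1 => ?_).trans e
    rw [(hσ.cls i).1 a (hX e1.1) b (hY e1.2)] at e
    exact absurd e (by simp)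
  · have := Cs_range _ _ _ ((eX a ha).subset hu)
    have := Cs_range _ _ _ ((eY b hb).subset hv)
    simp only [pow_succ]
    omega

end Pool.Agent.P.MP_4cb405_co.Pk
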