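import Pool.Agent.P.MP_4cb405_co.Pk.E

/-! The main induction on the height. -/

set_option autoImplicit false
set_option linter.unusedSectionVars false

namespace Pool.Agent.P.MP_4cb405_co.Pk

open Finset Function
open scoped Classical

variable {ι T : Type} [Fintype ι] [DecidableEq ι] [Fintype T] [DecidableEq T] {q : ℕ}

/-- The rank `r` is reached in colour `c` on the classes `τ 0, …, τ e`. -/
def Ach (n : ℕ) (ρ : ℕ → ℕ) (σ : Sta ι T q) (c : Fin q) (r e : ℕ) (τ : ℕ → ι) : Prop :=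
  ∃ d, St n ρ σ c r e (fun a => σ.S (τ a)) d

/-- Some rank is reached. -/
def PP (n : ℕ) (ρ : ℕ → ℕ) (σ : Sta ι T q) (c e : ℕ) (τ : ℕ → ι) : Prop :=
  ∀ c' : Fin q, c'.val = c → ∃ r ≤ n, Ach n ρ σ c' r e τ

/-- The tuples that are not reached. -/
noncomputable def Un (n : ℕ) (ρ : ℕ → ℕ) (w : ℕ) (σ : Sta ι T q) :
    Finset (Fin q × Fin (n + 1) × Fin (w + 1) × (Fin (w + 1) → ι)) :=
  univ.filter fun z => ¬ Ach n ρ σ z.1 z.2.1 z.2.2.1 fun a => z.2.2.2 ⟨min a w, by omega⟩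

variable {n : ℕ} {ρ : ℕ → ℕ} {σ σ' : Sta ι T q}

lemma Ach.ref {c : Fin q} {r e : ℕ} {τ τ' : ℕ → ι} (H : Ach n ρ σ c r e τ) (hr : Ref σ σ')
    (hS : ∀ a ≤ e, σ'.S (τ' a) ⊆ σ.S (τ a)) : Ach n ρ σ' c r e τ' :=
  H.imp fun _ h => h.ref hr hS

lemma PP.ref {c e : ℕ} {τ τ' : ℕ → ι} (H : PP n ρ σ c e τ) (hr : Ref σ σ')
    (hS : ∀ a ≤ e, σ'.S (τ' a) ⊆ σ.S (τ a)) : PP n ρ σ' c e τ' :=
  fun c' hc => (H c' hc).imp fun _ h => ⟨h.1, h.2.ref hr hS⟩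

lemma PP.zero (a : T) (c : ℕ) (τ : ℕ → ι) : PP n ρ σ c 0 τ :=
  fun c' _ => ⟨0, Nat.zero_le _, _, St.start n ρ σ c' _ a⟩

lemma Un_sub {w : ℕ} (hr : Ref σ σ') (hS : ∀ j, σ'.S j ⊆ σ.S j) : Un n ρ w σ' ⊆ Un n ρ w σ :=
  fun _ hz => mem_filter.2 ⟨mem_univ _, fun h => (mem_filter.1 hz).2 (h.ref hr fun _ _ => hS _)⟩

lemma Ref.refl (σ : Sta ι T q) : Ref σ σ := ⟨fun _ => Subset.rfl, fun _ _ _ h => h, le_rfl⟩

lemma Un_lt {w : ℕ} (hr : Ref σ σ') (hS : ∀ j, σ'.S j ⊆ σ.S j) {c : Fin q} {r e : ℕ} {τ : ℕ → ι}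
    (h1 : r ≤ n) (h2 : e ≤ w) (h3 : ¬ Ach n ρ σ c r e τ) (h4 : Ach n ρ σ' c r e τ) :
    (Un n ρ w σ').card < (Un n ρ w σ).card := by
  refine card_lt_card ⟨Un_sub hr hS, fun h => ?_⟩
  have := h (x := (c, ⟨r, by omega⟩, ⟨e, by omega⟩, fun a => τ a)) (mem_filter.2 ⟨mem_univ _,
    fun h5 => h3 (h5.ref (Ref.refl σ) fun a ha => by simp [min_eq_left (ha.trans h2)])⟩)
  exact (mem_filter.1 this).2
    (h4.ref (Ref.refl σ') fun a ha => by simp [min_eq_left (ha.trans h2)])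

lemma last_true {Q : ℕ → Prop} : ∀ {n : ℕ}, (∃ r ≤ n, Q r) → Q n ∨ ∃ r < n, Q r ∧ ¬ Q (r + 1)
  | 0, ⟨_, h1, h2⟩ => Or.inl (Nat.le_zero.1 h1 ▸ h2)
  | n + 1, ⟨r, h1, h2⟩ => by
    by_cases h3 : Q (n + 1)
    · exact Or.inl h3
    rcases last_true (n := n) ⟨r, by by_contra h; exact h3 ((by omega : r = n + 1) ▸ h2), h2⟩
      with h | ⟨r', a1, a2⟩
    · exact Or.inr ⟨n, Nat.lt_succ_self n, h, h3⟩
    · exact Or.inr ⟨r', a1.trans (Nat.lt_succ_self n), a2⟩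

lemma loss {z z' : ℝ} {d m k L : ℕ} (hq : 0 < q) (hm : m ≤ L) (hk : k ≤ L) (h1 : (1 / 2) ^ d ≤ z)
    (h2 : z / (2 * q * 2 ^ m * (q : ℝ) ^ k) ≤ z') : (1 / 2) ^ (d + (q + 1) * (L + 1)) ≤ z' := by
  have h3 : 2 * q * 2 ^ m * q ^ k ≤ 2 ^ ((q + 1) * (L + 1)) :=
    calc 2 * q * 2 ^ m * q ^ k ≤ 2 * 2 ^ q * 2 ^ L * (2 ^ q) ^ L := by
          have := Nat.lt_two_pow_self (n := q)
          gcongr
          · norm_num
          · exact Nat.one_le_two_pow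
      _ = _ := by ring
  have h4 : (2 * q * 2 ^ m * (q : ℝ) ^ k) ≤ 2 ^ ((q + 1) * (L + 1)) := by exact_mod_cast h3
  have h5 : (0 : ℝ) < q := by exact_mod_cast hq
  refine le_trans ?_ h2
  rw [pow_add, one_div_pow 2 (_ * _), mul_one_div]
  exact div_le_div₀ (le_trans (by positivity) h1) h1 (by positivity) h4

lemma gain {z z' : ℝ} {d m p : ℕ} (hp : 0 < p) (hm : 8 * p ≤ m) (h1 : (1 / 2) ^ d ≤ z)
    (h2 : (3 / 2) ^ m / 4 * z ≤ z') (h3 : z' ≤ 1) : p ≤ d ∧ (1 / 2) ^ (d - p) ≤ z' := by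
  have h4 : (2 : ℝ) ^ p ≤ (3 / 2) ^ m / 4 := by
    have a1 : ((2 : ℝ) * 8) ^ p ≤ (3 / 2) ^ m := (pow_le_pow_left₀ (by norm_num)
      (show (2 : ℝ) * 8 ≤ (3 / 2) ^ 8 by norm_num) p).trans
      (by rw [← pow_mul]; exact pow_le_pow_right₀ (by norm_num) hm)
    have a2 : (8 : ℝ) ≤ 8 ^ p := le_self_pow₀ (by norm_num) hp.ne'
    rw [mul_pow] at a1
    nlinarith [pow_pos (show (0 : ℝ) < 2 by norm_num) p]
  have h5 : (2 : ℝ) ^ p * (1 / 2) ^ d ≤ z' :=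
    (mul_le_mul h4 h1 (by positivity) (by positivity)).trans h2
  have h6 : p ≤ d := by
    rw [one_div_pow, mul_one_div] at h5
    have := (div_le_one (by positivity)).1 (h5.trans h3)
    exact (pow_le_pow_iff_right₀ (by norm_num)).1 this
  refine ⟨h6, le_trans (le_of_eq ?_) h5⟩
  obtain ⟨k, rfl⟩ := Nat.exists_eq_add_of_le h6
  rw [Nat.add_sub_cancel_left, pow_add, ← mul_assoc, ← mul_pow]
  norm_num

theorem main (hP : S_PASS) (hQ : S_PROBE) (f : ℕ → ℕ → Fin q) {N w p l₁ l₂ : ℕ}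
    (hρ : ∀ g < n, ∀ g' < n, ρ g = ρ g' → g = g') (hlt : ∀ g < n, ρ g < n)
    (hsur : ∀ r < n, ∃ g < n, ρ g = r) (hw : ∀ r, stage n ρ r ≤ w) (hp0 : 0 < p)
    (hp : ∀ σ : Sta ι T q, (Un n ρ w σ).card ≤ p) (h₁ : l₁ = (q + 1) * (Fintype.card T + 1))
    (h₂ : l₂ = (q + 1) * (Fintype.card T * Fintype.card T + 1)) (h : ℕ) :
    ∀ (σ : Sta ι T q) (μ s d : ℕ) (X : Finset ι), Good N σ → σ.h = h → Inv w (PP n ρ σ) q μ X →
      X.card + μ < Fintype.card ι → (∀ j ∈ X, s + 4 ^ μ * (8 * p) ≤ (σ.S j).card) →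
      (Un n ρ w σ).card ≤ s → (1 / 2) ^ d ≤ Z f σ.κ σ.A →
      d + s * (l₁ + p) + μ * (l₂ + p + p * (l₁ + p)) < p * h → Win f N n ρ := by
  induction h with
  | zero => intro _ _ _ _ _ _ _ _ _ _ _ _ h; omega
  | succ h ih =>
  intro σ μ s d X hσ hh hI hX hS hU hZ hm
  by_contra hW
  have hq : 0 < q := (f 0 0).pos
  have h8 : ∀ j ∈ X, 8 * p ≤ (σ.S j).card := fun j hj =>
    le_trans (by nlinarith [Nat.one_le_pow μ 4 (by norm_num)]) (hS j hj)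
  obtain ⟨i, hi, H⟩ := offer (fun c e τ k => ∀ c' : Fin q, c'.val = c → ∃ r d g,
      St n ρ σ c' r e (fun a => σ.S (τ a)) d ∧ g < n ∧ ρ g = r ∧ d.blk g = k ∧
        ¬ Ach n ρ σ c' (r + 1) e τ) hI fun c hc e τ hτ h1 => by
    rcases last_true (h1 ⟨c, hc⟩ rfl) with ⟨d', h2⟩ | ⟨r, a1, ⟨d', a2⟩, a3⟩
    · obtain ⟨x, b1, b2⟩ := fits_of_Z hσ.ne (lt_of_lt_of_le (by positivity) hZ)
      exact absurd (h2.win hlt (fun a ha => card_pos.1 (by have := h8 _ (hτ a ha); omega))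
        hσ.lt b1 b2) hW
    · obtain ⟨g, b1, b2⟩ := hsur r a1
      exact ⟨_, a2.le g b1.le (a2.cl g b1 b2.ge).1, fun c' e1 =>
        (Fin.ext e1 : c' = ⟨c, hc⟩) ▸ ⟨r, d', g, a2, b1, b2, rfl, a3⟩⟩
  have hT := card_le_univ (σ.S i)
  rcases round hP hQ f hσ hh i with ⟨σ', a1, a2, a3, a4, a5⟩ | ⟨c, hc⟩
  · obtain ⟨b1, b2⟩ := gain hp0 (h8 i hi) hZ a5 (Z_le_one f _ a1.ne)
    refine hW (ih σ' μ s (d - p) X a1 a2 (hI.mono (fun _ _ _ _ h => h.ref a4 fun _ _ => by rw [a3])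
      Subset.rfl le_rfl) hX (a3 ▸ hS) ((card_le_card (Un_sub a4 fun _ => by rw [a3])).trans hU)
      b2 ?_)
    rw [mul_add p h] at hm
    omega
  obtain ⟨e, τ, k, c1, c2, c3, c4, c5⟩ := H c c.2
  obtain ⟨r, dt, g, d1, d2, d3, d4, d5⟩ := c4 c rfl
  have hrn : r < n := d3 ▸ hlt g d2
  subst d4
  by_cases hpk : (g = 0 ∨ ρ (g - 1) < r) ∨ (g + 1 = n ∨ ρ (g + 1) < r)
  · obtain ⟨a₀, ha⟩ : (σ.S i).Nonempty := card_pos.1 (by have := h8 i hi; omega)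
    have hs : ∀ j, update σ.S i ((σ.S i).erase a₀) j ⊆ σ.S j := fun j => by
      by_cases e1 : j = i
      · subst e1; rw [update_self]; exact erase_subset _ _
      · rw [update_of_ne e1]
    obtain ⟨σ', a1, a2, a3, a4, a5, a6⟩ : ∃ σ' : Sta ι T q, Good N σ' ∧ σ'.h = h ∧
        σ'.S = update σ.S i ((σ.S i).erase a₀) ∧ Ref σ σ' ∧
        (1 / 2) ^ (d + l₁) ≤ Z f σ'.κ σ'.A ∧ Ach n ρ σ' c (r + 1) e τ := by
      have hd : ∀ j k, j ≠ k → Disjoint (update σ.S i ((σ.S i).erase a₀) j)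
        (update σ.S i ((σ.S i).erase a₀) k) := fun j k h => (hσ.dis j k h).mono (hs j) (hs k)
      have hcd := card_le_univ ((σ.S i).erase a₀)
      rcases hpk with hpk | hpk
      · obtain ⟨σ', a1, a2, a3, a4, a5⟩ := hc {a₀} ((σ.S i).erase a₀) (by simp)
          (insert_erase ha) _ hd fun j => by by_cases e1 : j = i <;> simp [e1]
        exact ⟨σ', a1, a2, a3, a4.toRef, h₁ ▸ loss hq hT (by simpa using hcd) hZ a5,
          d1.pend hρ d2 d3 (c3 ▸ ha) a4 (fun _ _ => a3 ▸ hs _)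
          (Or.inl ⟨hpk, mem_singleton_self _, by simp [a3, c3]⟩)⟩
      · obtain ⟨σ', a1, a2, a3, a4, a5⟩ := hc ((σ.S i).erase a₀) {a₀} (by simp)
          ((union_comm _ _).trans (insert_erase ha)) _ hd
          fun j => by by_cases e1 : j = i <;> simp [e1]
        exact ⟨σ', a1, a2, a3, a4.toRef, h₁ ▸ loss hq hT (by simpa using hcd) hZ a5,
          d1.pend hρ d2 d3 (c3 ▸ ha) a4 (fun _ _ => a3 ▸ hs _)
          (Or.inr ⟨hpk, mem_singleton_self _, by simp [a3, c3]⟩)⟩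
    have b1 := Un_lt a4 (a3 ▸ hs) hrn c1 d5 a6
    obtain ⟨s, rfl⟩ : ∃ s', s = s' + 1 := ⟨s - 1, by omega⟩
    refine hW (ih σ' μ s (d + l₁) X a1 a2 (hI.mono (fun _ _ _ _ h => h.ref a4 fun _ _ =>
      a3 ▸ hs _) Subset.rfl le_rfl) hX (fun j hj => ?_) (by omega) a5 ?_)
    · have := hS j hj
      rw [a3]
      by_cases e1 : j = i
      · subst e1; rw [update_self, card_erase_of_mem ha]; omega
      · rw [update_of_ne e1]; omega
    · rw [mul_add p h, add_mul s] at hm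
      omega
  have hpeak : peak n ρ g := by
    have b1 : ρ (g - 1) ≠ ρ g := fun e1 => by have := hρ _ (by omega) g d2 e1; omega
    have b2 : ρ (g + 1) ≠ ρ g := fun e1 => by have := hρ _ (by omega) g d2 e1; omega
    refine ⟨?_, ?_, ?_, ?_⟩ <;> omega
  obtain ⟨m, hm'⟩ : ∃ m, m ∉ X := by
    by_contra hc
    push Not at hc
    have := card_le_card (show univ ⊆ X from fun x _ => hc x)
    rw [card_univ] at this
    omega
  have hmi : i ≠ m := fun e1 => hm' (e1 ▸ hi)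
  obtain ⟨U, u1, u2⟩ := exists_subset_card_eq (Nat.div_le_self (σ.S i).card 2)
  have u3 := card_sdiff_add_card_eq_card u1
  set S' := update (update σ.S i U) m (σ.S i \ U) with hS'
  have s1 : S' m = σ.S i \ U := update_self _ _ _
  have s2 : S' i = U := by rw [hS', update_of_ne hmi, update_self]
  have s3 : ∀ j, j ≠ m → j ≠ i → S' j = σ.S j := fun j e1 e2 => by
    rw [hS', update_of_ne e1, update_of_ne e2]
  have s4 : ∀ j, S' j ⊆ σ.S (par i m j) := fun j => by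
    by_cases e1 : j = m
    · rw [par, if_pos e1, e1, s1]; exact sdiff_subset
    rw [par, if_neg e1]
    by_cases e2 : j = i
    · rwa [e2, s2]
    · rw [s3 j e1 e2]
  obtain ⟨σ', a1, a2, a3, a4, a5⟩ := hc U (σ.S i \ U) disjoint_sdiff (union_sdiff_of_subset u1) S'
    (fun j k hjk => by
      by_cases e1 : par i m j = par i m k
      · have : (j = i ∧ k = m) ∨ (j = m ∧ k = i) := by unfold par at e1; grind
        rcases this with ⟨rfl, rfl⟩ | ⟨rfl, rfl⟩ <;> rw [s1, s2]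
        exacts [disjoint_sdiff, sdiff_disjoint]
      · exact (hσ.dis _ _ e1).mono (s4 j) (s4 k))
    fun j => by
      by_cases e1 : j = m
      · exact Or.inr (Or.inl (e1 ▸ s1))
      by_cases e2 : j = i
      · exact Or.inl (e2 ▸ s2)
      · exact Or.inr (Or.inr ⟨e2, s3 j e1 e2⟩)
  obtain ⟨c6, c7⟩ := c5 (PP n ρ σ') m hm'
  have s5 : ∀ a ≤ e, σ'.S (τ a) ⊆ σ.S (τ a) := fun a ha => by
    simpa only [a3, par, if_neg (c6 a ha)] using s4 (τ a)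
  obtain ⟨b1, b2⟩ := d1.birth (S' := fun a => σ'.S (ins τ (dt.blk g) m a)) hρ d2 d3 hpeak a4
    (c3 ▸ sdiff_subset) (fun a ha => by simpa only [ins, if_pos ha] using s5 a (ha.trans c2))
    (by simp [ins, c3, a3, s2]) (by simp [ins, a3, s1]) fun a ha hb => by
      simpa [ins, show ¬ a + 1 ≤ dt.blk g by omega, hb.ne'] using s5 a ha
  obtain ⟨a₀, -⟩ : (σ.S i).Nonempty := card_pos.1 (by have := h8 i hi; omega)
  obtain ⟨μ', b3, b4⟩ := c7 (fun _ _ _ τ' h1 h2 => h2.ref a4.toRef fun a ha => by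
      rw [h1 a ha, a3]; exact s4 _) (PP.zero a₀) (b1.trans (hw _))
    fun τ' h1 c' e1 => ⟨r + 1, hrn, (Fin.ext e1 : c' = c) ▸
      Ach.ref b2 (Ref.refl σ') fun a ha => by rw [h1 a ha]⟩
  have b5 : 4 ^ μ' * 4 ≤ 4 ^ μ := by
    rw [← pow_succ]; exact Nat.pow_le_pow_right (by norm_num) b3
  have b6 : 2 * (p + 4 ^ μ' * (8 * p)) ≤ 4 ^ μ * (8 * p) := by
    nlinarith [Nat.mul_le_mul_right (8 * p) b5, Nat.one_le_pow μ' 4 (by norm_num)]
  refine hW (ih σ' μ' p (d + l₂) _ a1 a2 b4 (by rw [card_insert_of_notMem hm']; omega)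
    (fun j hj => ?_) (hp σ') (h₂ ▸ loss hq (hT.trans (Nat.le_mul_self _))
      (Nat.mul_le_mul (card_le_univ _) (card_le_univ _)) hZ a5) ?_)
  · have := hS i hi
    rw [a3]
    by_cases e1 : j = m
    · rw [e1, s1]; omega
    by_cases e2 : j = i
    · rw [e2, s2]; omega
    · have := hS j ((mem_insert.1 hj).resolve_left e1)
      rw [s3 j e1 e2]; omega
  · have := Nat.mul_le_mul_right (l₂ + p + p * (l₁ + p)) (Nat.succ_le_of_lt b3)
    rw [Nat.succ_mul] at this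
    rw [mul_add p h] at hm
    omega

end Pool.Agent.P.MP_4cb405_co.Pk
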