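import Pool.Agent.P.MP_4cb405_co.Pk.F

/-! The start of the induction and the constants. -/

set_option autoImplicit false

namespace Pool.Agent.P.MP_4cb405_co.Pk

open Finset Function
open scoped Classical

lemma num {q w M : ℕ} (hq : 0 < q) (hM : M = (w + 1) ^ (2 * q)) :
    2 * ((M + 1) * (6 * (q + 1) * (1 + 4 ^ M * 8) ^ 2) * (q * (w + 1) * (M + 1) ^ (w + 1))) ≤
      2 ^ ((4 * q + 19) * M) := by
  have h0 : (w + 1) ^ 2 ≤ M := hM ▸ Nat.pow_le_pow_right (by omega) (by omega)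
  have h1 : w + 1 ≤ M := by nlinarith
  have h2 : M + 1 ≤ 2 ^ M := Nat.lt_two_pow_self
  have h3 : 1 + 4 ^ M * 8 ≤ 2 ^ (6 * M) := by
    have a1 : 16 ≤ 16 ^ M := Nat.le_self_pow (by omega) 16
    have a2 : 1 ≤ 4 ^ M := Nat.one_le_pow _ _ (by norm_num)
    rw [pow_mul, show 2 ^ 6 = 4 * 16 by norm_num, mul_pow]
    nlinarith
  have h4 : M + 1 ≤ 2 ^ ((2 * q + 1) * (w + 1)) := by
    have a1 : M ≤ (2 ^ (w + 1)) ^ (2 * q) :=
      hM ▸ Nat.pow_le_pow_left (Nat.lt_two_pow_self).le _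
    have a2 : 2 ≤ 2 ^ (w + 1) := Nat.le_self_pow (by omega) 2
    rw [mul_comm, pow_mul, pow_succ]
    nlinarith
  have h5 : (M + 1) ^ (w + 1) ≤ 2 ^ ((2 * q + 1) * M) :=
    (Nat.pow_le_pow_left h4 _).trans (by
      rw [← pow_mul]; exact Nat.pow_le_pow_right (by norm_num) (by nlinarith))
  have h6 : 12 * (q + 1) * q ≤ 2 ^ ((2 * q + 4) * M) := by
    have a1 : q + 1 ≤ 2 ^ q := Nat.lt_two_pow_self
    refine le_trans ?_ (Nat.pow_le_pow_right (by norm_num)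
      (Nat.le_mul_of_pos_right (2 * q + 4) (by omega)))
    rw [pow_add, mul_comm 2 q, pow_mul]
    nlinarith
  calc _ = 12 * (q + 1) * q * (M + 1) * (1 + 4 ^ M * 8) ^ 2 * (w + 1) * (M + 1) ^ (w + 1) := by ring
    _ ≤ 2 ^ ((2 * q + 4) * M) * 2 ^ M * (2 ^ (6 * M)) ^ 2 * 2 ^ M * 2 ^ ((2 * q + 1) * M) := by
      have : w + 1 ≤ 2 ^ M := by omega
      gcongr
    _ = _ := by ring

lemma num2 {q a p M μ : ℕ} (ha : 0 < a) (hp : 0 < p) (hμ : μ + 1 ≤ M) :
    0 + p * ((q + 1) * (a * p + 1) + p) + μ * ((q + 1) * (a * p * (a * p) + 1) + p +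
      p * ((q + 1) * (a * p + 1) + p)) < p * ((M + 1) * (6 * (q + 1) * a ^ 2) * p) := by
  have h0 : p ≤ a * p := Nat.le_mul_of_pos_left p ha
  have h1 : a * p ≤ a * p * (a * p) := Nat.le_mul_self _
  have h2 : p * ((q + 1) * (a * p + 1) + p) ≤ 3 * (q + 1) * (a * p * (a * p)) :=
    calc _ ≤ a * p * ((q + 1) * (a * p + a * p) + (q + 1) * (a * p)) := by
          gcongr
          · omega
          · exact h0.trans (Nat.le_mul_of_pos_left _ (by omega))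
      _ = _ := by ring
  have h3 : (q + 1) * (a * p * (a * p) + 1) + p ≤ 3 * (q + 1) * (a * p * (a * p)) :=
    calc _ ≤ (q + 1) * (a * p * (a * p) + a * p * (a * p)) + (q + 1) * (a * p * (a * p)) := by
          gcongr
          · omega
          · exact (h0.trans h1).trans (Nat.le_mul_of_pos_left _ (by omega))
      _ = _ := by ring
  have h4 : 0 < (q + 1) * (a * p * (a * p)) := by positivity
  calc _ ≤ 0 + 3 * (q + 1) * (a * p * (a * p)) + M * (3 * (q + 1) * (a * p * (a * p)) +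
        3 * (q + 1) * (a * p * (a * p))) := by gcongr; omega
    _ < _ := by nlinarith

theorem core (hP : S_PASS) (hQ : S_PROBE) {q : ℕ} (f : ℕ → ℕ → Fin q) {n w N : ℕ} {ρ : ℕ → ℕ}
    (hρ : ∀ g < n, ∀ g' < n, ρ g = ρ g' → g = g') (hlt : ∀ g < n, ρ g < n)
    (hsur : ∀ r < n, ∃ g < n, ρ g = r) (hw : ∀ r, stage n ρ r ≤ w)
    (hN : 2 ^ (2 ^ ((4 * q + 19) * (w + 1) ^ (2 * q)) * (n + 1)) ≤ N) : Win f N n ρ := by
  have hq : 0 < q := (f 0 0).pos
  obtain ⟨M, hM⟩ : ∃ M, M = (w + 1) ^ (2 * q) := ⟨_, rfl⟩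
  obtain ⟨p, hp⟩ : ∃ p, p = q * (w + 1) * (M + 1) ^ (w + 1) * (n + 1) := ⟨_, rfl⟩
  obtain ⟨a, ha⟩ : ∃ a, a = 1 + 4 ^ M * 8 := ⟨_, rfl⟩
  obtain ⟨h, hh⟩ : ∃ h, h = (M + 1) * (6 * (q + 1) * a ^ 2) * p := ⟨_, rfl⟩
  have hp0 : 0 < p := by rw [hp]; positivity
  have ha0 : 0 < a := by omega
  have hB := hM ▸ Bd_lt w q
  have h3 : 3 ^ h ≤ N := by
    refine le_trans ?_ hN
    refine (Nat.pow_le_pow_left (show 3 ≤ 2 ^ 2 by norm_num) h).trans ?_
    rw [← pow_mul, ← hM]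
    refine Nat.pow_le_pow_right (by norm_num) (le_trans (le_of_eq ?_)
      (Nat.mul_le_mul_right (n + 1) (num hq hM)))
    rw [hh, hp, ha]; ring
  have hU : ∀ σ : Sta (Fin (M + 1)) (Fin (a * p)) q, (Un n ρ w σ).card ≤ p := fun σ =>
    (card_le_univ _).trans (by simp [hp]; exact le_of_eq (by ring))
  have hNE : NE fun _ : Fin (a * p) => Cs h 0 := fun _ => Cs_nonempty h 0
  refine main (ι := Fin (M + 1)) (T := Fin (a * p)) hP hQ f hρ hlt hsur hw hp0 hU rfl rfl h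
    ⟨fun j => if j = 0 then univ else ∅, fun _ => Cs h 0, fun _ _ => none, h⟩ (Bd w q) p 0 {0}
    ⟨hNE, fun _ u hu => ?_, fun j k hjk => ?_, fun j => by simp [Cls], fun _ => ⟨0, fun _ _ => rfl⟩⟩
    rfl (Inv.fresh (PP.zero ⟨0, by positivity⟩) 0 q) (by simp; omega) (fun j hj => ?_) (hU _) ?_ ?_
  · have := Cs_range _ _ _ hu
    omega
  · by_cases e : j = 0
    · simp [show k ≠ 0 from fun e2 => hjk (e.trans e2.symm)]
    · simp [e]
  · have := Nat.mul_le_mul_right (8 * p)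
      (Nat.pow_le_pow_right (show 0 < 4 by norm_num) (show Bd w q ≤ M by omega))
    simp only [mem_singleton.1 hj, if_true, card_univ, Fintype.card_fin, ha]
    nlinarith
  · refine (pow_zero _).le.trans ((Av_const hNE 1).ge.trans (Av_mono fun x _ => ?_))
    simp [ind, Fits]
  · simpa only [Fintype.card_fin, hh] using num2 (q := q) ha0 hp0 hB

end Pool.Agent.P.MP_4cb405_co.Pk
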